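import Mathlib
import Pool.Agent.N753.DR.Stm2
import Pool.Agent.N262.DR.Box
import Pool.Agent.N415.DR.VK
import Pool.Agent.N490.CV.CoreB
import Pool.Agent.H645R3.ABC7

/-!
# Elements of the box with values of small radical, part 1
-/

set_option autoImplicit false
set_option linter.unusedSectionVars false

namespace Pool.Agent.J6H60.DR

open NumberField IsDedekindDomain Module Pool.Agent.N753.DR Height

section fibre

variable {K : Type} [Field K] [NumberField K]

/-- the elements of the box with a given value of a linear map -/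
theorem fibre {V : Type} [AddCommGroup V] [Module K V] {m : ℕ} (v : Fin m → V) (B : ℕ)
    (S : Set (Fin m → 𝓞 K)) (hS : S ⊆ Bx K m B)
    (hc : ∀ c ∈ S, ∀ c' ∈ S, ∑ i, (c i : K) • v i = ∑ i, (c' i : K) • v i) :
    S.ncard ≤ (2 * B + 1) ^ (finrank ℚ K * (m - finrank K (Submodule.span K (Set.range v)))) := by
  classical
  obtain ⟨κ, a, ha, hspan, hli⟩ := exists_linearIndependent' K v
  have : Finite κ := Finite.of_injective a ha
  have : Fintype κ := Fintype.ofFinite κ
  have hrank : finrank K (Submodule.span K (Set.range v)) = Fintype.card κ := by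
    rw [← hspan]
    exact finrank_span_eq_card hli
  set I : Finset (Fin m) := Finset.univ.filter fun i => i ∉ Set.range a with hI
  have hIc : I.card = m - Fintype.card κ := by
    have h1 : Iᶜ = Finset.univ.image a := by
      ext i
      rw [Finset.mem_compl, hI, Finset.mem_filter, Finset.mem_image]
      simp
    have h2 : (Finset.univ.image a).card = Fintype.card κ := by
      rw [Finset.card_image_of_injective _ ha, Finset.card_univ]
    have h3 := Finset.card_compl I
    rw [h1, h2, Fintype.card_fin] at h3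
    have h4 : I.card ≤ m := (Finset.card_le_univ I).trans (by rw [Fintype.card_fin])
    omega
  let e : Fin I.card → Fin m := fun k => (I.equivFin.symm k : Fin m)
  have hinj : Set.InjOn (fun c : Fin m → 𝓞 K => fun k : Fin I.card => c (e k)) S := by
    intro c hcS c' hcS' h
    have h1 : ∀ i ∉ Set.range a, c i = c' i := by
      intro i hi
      have hiI : i ∈ I := by rw [hI, Finset.mem_filter]; exact ⟨Finset.mem_univ _, hi⟩
      have h2 := congrFun h (I.equivFin ⟨i, hiI⟩)
      simpa [e] using h2
    have h3 : ∑ i, ((c i : K) - (c' i : K)) • v i = 0 := by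
      have := hc c hcS c' hcS'
      simp only [sub_smul, Finset.sum_sub_distrib]
      rw [this, sub_self]
    have h4 : ∑ k, ((c (a k) : K) - (c' (a k) : K)) • v (a k) = 0 := by
      rw [← h3, ← Finset.sum_image (s := Finset.univ) (g := a)
        (f := fun i => ((c i : K) - (c' i : K)) • v i) (fun _ _ _ _ h => ha h)]
      refine Finset.sum_subset (Finset.subset_univ _) fun i _ hi => ?_
      have hi' : i ∉ Set.range a := by
        rintro ⟨k, rfl⟩
        exact hi (Finset.mem_image_of_mem _ (Finset.mem_univ _))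
      rw [h1 i hi', sub_self, zero_smul]
    rw [Fintype.linearIndependent_iff] at hli
    have h5 := hli (fun k => (c (a k) : K) - (c' (a k) : K)) h4
    funext i
    by_cases hi : i ∈ Set.range a
    · obtain ⟨k, rfl⟩ := hi
      have h6 := sub_eq_zero.1 (h5 k)
      exact RingOfIntegers.coe_injective h6
    · exact h1 i hi
  have hmaps : ∀ c ∈ S, (fun k : Fin I.card => c (e k)) ∈ Bx K I.card B := fun c hcS k => hS hcS _
  have h6 := Set.ncard_le_ncard_of_injOn _ hmaps hinj (Pool.Agent.N262.DR.Bx_finite _ _)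
  refine h6.trans ((Pool.Agent.N262.DR.Bx_card _ _).trans (le_of_eq ?_))
  rw [hIc, hrank]

end fibre

section ovr

variable {K L : Type} [Field K] [NumberField K] [Field L] [NumberField L] [Algebra K L]

/-- the sum over the primes above a prime -/
theorem sum_over_le (v : HeightOneSpectrum (𝓞 K)) :
    ∃ W : Finset (HeightOneSpectrum (𝓞 L)), (∀ w, w ∈ W ↔ w.asIdeal.LiesOver v.asIdeal) ∧
      ∑ w ∈ W, lN w ≤ finrank K L * lN v := by
  classical
  have hmax : v.asIdeal.IsMaximal := v.isMaximal
  have h1 := Ideal.sum_ramification_inertia (𝓞 L) K L (p := v.asIdeal) v.ne_bot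
  have hmem : ∀ P, P ∈ IsDedekindDomain.primesOverFinset v.asIdeal (𝓞 L) ↔
      P.IsPrime ∧ P.LiesOver v.asIdeal :=
    fun P => IsDedekindDomain.mem_primesOverFinset_iff v.ne_bot _
  let f : {P // P ∈ IsDedekindDomain.primesOverFinset v.asIdeal (𝓞 L)} →
      HeightOneSpectrum (𝓞 L) := fun P =>
    ⟨P.1, ((hmem P.1).1 P.2).1, by
      have := ((hmem P.1).1 P.2).2
      exact Ideal.ne_bot_of_liesOver_of_ne_bot v.ne_bot P.1⟩
  refine ⟨(IsDedekindDomain.primesOverFinset v.asIdeal (𝓞 L)).attach.image f, fun w => ?_, ?_⟩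
  · rw [Finset.mem_image]
    constructor
    · rintro ⟨P, -, rfl⟩
      exact ((hmem P.1).1 P.2).2
    · intro h
      exact ⟨⟨w.asIdeal, (hmem _).2 ⟨w.isPrime, h⟩⟩, Finset.mem_attach _ _, rfl⟩
  · rw [Finset.sum_image]
    · rw [← h1]
      push_cast
      rw [Finset.sum_mul, ← Finset.sum_attach (IsDedekindDomain.primesOverFinset v.asIdeal (𝓞 L))
        (fun i => (v.asIdeal.ramificationIdx' i : ℝ) * (v.asIdeal.inertiaDeg' i : ℝ) * lN v)]
      refine Finset.sum_le_sum fun P _ => ?_
      have hP := (hmem P.1).1 P.2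
      have h2 := Pool.Agent.N415.DRVK.lN_over v (f P) hP.2
      have hlo : P.1.LiesOver v.asIdeal := hP.2
      have hpr : P.1.IsPrime := hP.1
      have h3 : v.asIdeal.ramificationIdx' P.1 ≠ 0 :=
        Ideal.IsDedekindDomain.ramificationIdx'_ne_zero_of_liesOver P.1 v.ne_bot
      have h4 : (1 : ℝ) ≤ v.asIdeal.ramificationIdx' P.1 := by
        exact_mod_cast Nat.one_le_iff_ne_zero.2 h3
      have h5 : 0 ≤ (v.asIdeal.inertiaDeg' P.1 : ℝ) * lN v :=
        mul_nonneg (Nat.cast_nonneg _) (Real.log_natCast_nonneg _)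
      rw [h2, mul_assoc]
      exact le_mul_of_one_le_left h5 h4
    · intro P _ Q _ h
      apply Subtype.ext
      exact congrArg HeightOneSpectrum.asIdeal h

/-- the primes above those of a finite set -/
theorem sum_all (V : Finset (HeightOneSpectrum (𝓞 K))) (T : Finset (HeightOneSpectrum (𝓞 L)))
    (hT : ∀ w ∈ T, ∃ v ∈ V, w.asIdeal.LiesOver v.asIdeal) :
    ∑ w ∈ T, lN w ≤ finrank K L * ∑ v ∈ V, lN v := by
  classical
  choose W hW1 hW2 using fun v : HeightOneSpectrum (𝓞 K) => sum_over_le (L := L) v
  calc ∑ w ∈ T, lN w ≤ ∑ w ∈ V.biUnion W, lN w := by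
        refine Finset.sum_le_sum_of_subset_of_nonneg ?_ fun w _ _ => Real.log_natCast_nonneg _
        intro w hw
        obtain ⟨v, hv, hwv⟩ := hT w hw
        exact Finset.mem_biUnion.2 ⟨v, hv, (hW1 v w).2 hwv⟩
    _ = ∑ v ∈ V, ∑ w ∈ W v, lN w := by
        refine Finset.sum_biUnion ?_
        intro v _ v' _ hvv
        rw [Function.onFun, Finset.disjoint_left]
        intro w hw hw'
        apply hvv
        have g1 := ((hW1 v w).1 hw).over
        have g2 := ((hW1 v' w).1 hw').over
        exact HeightOneSpectrum.ext (g1.trans g2.symm)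
    _ ≤ ∑ v ∈ V, finrank K L * lN v := Finset.sum_le_sum fun v _ => hW2 v
    _ = _ := by rw [Finset.mul_sum]

end ovr

end Pool.Agent.J6H60.DR
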