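import Mathlib
import Pool.Agent.J6H60.DR.CoreW1
import Pool.Agent.N328.CV.CoreV

/-!
# Elements of the box with values of small radical, part 2: one field
-/

set_option autoImplicit false
set_option linter.unusedSectionVars false

namespace Pool.Agent.J6H60.DR

open NumberField IsDedekindDomain Module Pool.Agent.N753.DR Height
open H645.ABC

section

variable {K L : Type} [Field K] [NumberField K] [Field L] [NumberField L] [Algebra K L]

theorem mem_of_sF {z : 𝓞 L} (hz : z ≠ 0) (y : Lˣ) (hy : (y : L) = algebraMap (𝓞 L) L z)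
    {w : HeightOneSpectrum (𝓞 L)} (hw : w ∈ sF y) : z ∈ w.asIdeal := by
  by_contra hcon
  refine (mem_sF y w).1 hw (vl_int w z hz y hy fun h => hcon ?_)
  exact (Ideal.dvd_span_singleton).1 h

theorem mulHeight_le {z : 𝓞 L} {X : ℝ} (hX : 1 ≤ X) (h : ∀ v : InfinitePlace L, v (z : L) ≤ X) :
    mulHeight₁ (z : L) ≤ X ^ finrank ℚ L := by
  rw [NumberField.mulHeight₁_eq]
  have h0 : 0 ≤ X := by linarith
  have h1 : (∏ᶠ v : FinitePlace L, max (v ((z : 𝓞 L) : L)) 1) = 1 := by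
    apply finprod_eq_one_of_forall_eq_one
    intro v
    exact max_eq_right (fin_le_one v z)
  rw [h1, mul_one]
  calc (∏ v : InfinitePlace L, max (v ((z : 𝓞 L) : L)) 1 ^ v.mult)
      ≤ ∏ v : InfinitePlace L, X ^ v.mult := by
        apply Finset.prod_le_prod
        · intro v _
          positivity
        · intro v _
          apply pow_le_pow_left₀ (by positivity)
          exact max_le (h v) hX
    _ = X ^ finrank ℚ L := by
        rw [Finset.prod_pow_eq_pow_sum, InfinitePlace.sum_mult_eq]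

theorem NS_eq (T : Finset (HeightOneSpectrum (𝓞 L))) : H645.ABC.NS L T = Real.exp (∑ w ∈ T, lN w) := by
  unfold H645.ABC.NS
  rw [Real.exp_sum]
  refine Finset.prod_congr rfl fun w _ => ?_
  unfold lN
  rw [Real.exp_log]
  have := one_lt_absNorm w
  exact_mod_cast (by omega : 0 < Ideal.absNorm w.asIdeal)

/-- the value is a number of bounded height and radical -/
theorem one_field {m : ℕ} (β : Fin m → 𝓞 L) (Bad : Finset (HeightOneSpectrum (𝓞 K))) :
    ∃ C : ℝ, 1 ≤ C ∧ ∀ (B : ℕ) (c : Fin m → 𝓞 K), 1 ≤ B → c ∈ Bx K m B → evB K β c ≠ 0 →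
      ∀ (W : Finset (HeightOneSpectrum (𝓞 K))) (Z : ℝ),
      (∀ v ∉ Bad, ∀ w : HeightOneSpectrum (𝓞 L), w.asIdeal.LiesOver v.asIdeal →
        evB K β c ∈ w.asIdeal → v ∈ W) → ∑ v ∈ W, lN v ≤ Z →
      ∃ y : Lˣ, (y : L) = (evB K β c : L) ∧ mulHeight₁ (y : L) ≤ (C * B) ^ (finrank ℚ L) ∧
        H645.ABC.NS L (sF y) ≤ C * Real.exp (finrank K L * Z) := by
  classical
  obtain ⟨C₁, hC₁, h₁⟩ := Pool.Agent.N490.CV.CoreB.evB_le (K := K) β
  set C₂ : ℝ := Real.exp (finrank K L * ∑ v ∈ Bad, lN v) with hC₂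
  refine ⟨max C₁ C₂, le_max_of_le_left hC₁, ?_⟩
  intro B c hB hc hz W Z hW hZ
  have hzL : (evB K β c : L) ≠ 0 := by
    intro h
    exact hz (RingOfIntegers.coe_injective (by rw [map_zero]; exact h))
  have hB1 : (1 : ℝ) ≤ B := by exact_mod_cast hB
  refine ⟨Units.mk0 _ hzL, rfl, ?_, ?_⟩
  · rw [Units.val_mk0]
    refine mulHeight_le (one_le_mul_of_one_le_of_one_le (le_max_of_le_left hC₁) hB1) fun v => ?_
    refine (h₁ B c hc v).trans ?_
    exact mul_le_mul_of_nonneg_right (le_max_left _ _) (Nat.cast_nonneg _)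
  · rw [NS_eq]
    have h2 : ∑ w ∈ sF (Units.mk0 _ hzL), lN w ≤
        finrank K L * ∑ v ∈ Bad ∪ W, lN v := by
      refine sum_all (Bad ∪ W) _ fun w hw => ?_
      have hmem := mem_of_sF hz (Units.mk0 _ hzL) rfl hw
      refine ⟨HeightOneSpectrum.under (𝓞 K) w, ?_, ⟨rfl⟩⟩
      rw [Finset.mem_union]
      by_cases hb : HeightOneSpectrum.under (𝓞 K) w ∈ Bad
      · exact Or.inl hb
      · exact Or.inr (hW _ hb w ⟨rfl⟩ hmem)
    have h3 : ∑ v ∈ Bad ∪ W, lN v ≤ ∑ v ∈ Bad, lN v + ∑ v ∈ W, lN v := by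
      have h4 : ∑ v ∈ Bad ∪ W, lN v + ∑ v ∈ Bad ∩ W, lN v = ∑ v ∈ Bad, lN v + ∑ v ∈ W, lN v :=
        Finset.sum_union_inter
      have h5 : 0 ≤ ∑ v ∈ Bad ∩ W, lN v := Finset.sum_nonneg fun v _ => Real.log_natCast_nonneg _
      linarith
    have h6 : ∑ w ∈ sF (Units.mk0 _ hzL), lN w ≤
        finrank K L * ∑ v ∈ Bad, lN v + finrank K L * Z := by
      refine h2.trans ?_
      rw [← mul_add]
      exact mul_le_mul_of_nonneg_left (by linarith) (Nat.cast_nonneg _)
    calc Real.exp (∑ w ∈ sF (Units.mk0 _ hzL), lN w) ≤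
          Real.exp (finrank K L * ∑ v ∈ Bad, lN v + finrank K L * Z) := Real.exp_le_exp.2 h6
      _ = C₂ * Real.exp (finrank K L * Z) := by rw [Real.exp_add]
      _ ≤ _ := mul_le_mul_of_nonneg_right (le_max_right _ _) (Real.exp_pos _).le

/-- common denominators -/
theorem exists_den {ι : Type} [Finite ι] (x : ι → L) :
    ∃ (t : ℕ) (β : ι → 𝓞 L), t ≠ 0 ∧ ∀ i, (β i : L) = t * x i := by
  have := Fintype.ofFinite ι
  obtain ⟨D, hD, h⟩ := Pool.Agent.N328.CV.exists_den x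
  exact ⟨D, fun i => ⟨(D : L) * x i, h i⟩, hD, fun i => rfl⟩

end

end Pool.Agent.J6H60.DR
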