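import Mathlib
import Pool.Agent.J6H60.DR.CoreW3

/-!
# Elements of the box with values of small radical: primes of an intermediate field
-/

set_option autoImplicit false
set_option linter.unusedSectionVars false

namespace Pool.Agent.J6H60.DR

open NumberField IsDedekindDomain Module Pool.Agent.N753.DR Height
open H645.ABC (sF V_count finite_units)

variable {K k : Type} [Field K] [NumberField K] [Field k] [NumberField k]

/-- the value is a number of bounded height and radical -/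
theorem one_fieldk {L : Type} [Field L] [NumberField L] [Algebra K L] [Algebra k L] {m : ℕ}
    (β : Fin m → 𝓞 L) (Bad : Finset (HeightOneSpectrum (𝓞 k))) :
    ∃ C : ℝ, 1 ≤ C ∧ ∀ (B : ℕ) (c : Fin m → 𝓞 K), 1 ≤ B → c ∈ Bx K m B → evB K β c ≠ 0 →
      ∀ (W : Finset (HeightOneSpectrum (𝓞 k))) (Z : ℝ),
      (∀ v ∉ Bad, ∀ w : HeightOneSpectrum (𝓞 L), w.asIdeal.LiesOver v.asIdeal →
        evB K β c ∈ w.asIdeal → v ∈ W) → ∑ v ∈ W, lN v ≤ Z →
      ∃ y : Lˣ, (y : L) = (evB K β c : L) ∧ mulHeight₁ (y : L) ≤ (C * B) ^ (finrank ℚ L) ∧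
        H645.ABC.NS L (sF y) ≤ C * Real.exp (finrank k L * Z) := by
  classical
  obtain ⟨C₁, hC₁, h₁⟩ := Pool.Agent.N490.CV.CoreB.evB_le (K := K) β
  set C₂ : ℝ := Real.exp (finrank k L * ∑ v ∈ Bad, lN v) with hC₂
  refine ⟨max C₁ C₂, le_max_of_le_left hC₁, ?_⟩
  intro B c hB hc hz W Z hW hZ
  have hzL : (evB K β c : L) ≠ 0 := by
    intro h
    exact hz (RingOfIntegers.coe_injective (by rw [map_zero]; exact h))
  have hB1 : (1 : ℝ) ≤ B := by exact_mod_cast hB
  refine ⟨Units.mk0 _ hzL, rfl, ?_, ?_⟩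
  · rw [Units.val_mk0]
    refine mulHeight_le (one_le_mul_of_one_le_of_one_le (le_max_of_le_left hC₁) hB1) fun v => ?_
    refine (h₁ B c hc v).trans ?_
    exact mul_le_mul_of_nonneg_right (le_max_left _ _) (Nat.cast_nonneg _)
  · rw [NS_eq]
    have h2 : ∑ w ∈ sF (Units.mk0 _ hzL), lN w ≤
        finrank k L * ∑ v ∈ Bad ∪ W, lN v := by
      refine sum_all (Bad ∪ W) _ fun w hw => ?_
      have hmem := mem_of_sF hz (Units.mk0 _ hzL) rfl hw
      refine ⟨HeightOneSpectrum.under (𝓞 k) w, ?_, ⟨rfl⟩⟩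
      rw [Finset.mem_union]
      by_cases hb : HeightOneSpectrum.under (𝓞 k) w ∈ Bad
      · exact Or.inl hb
      · exact Or.inr (hW _ hb w ⟨rfl⟩ hmem)
    have h3 : ∑ v ∈ Bad ∪ W, lN v ≤ ∑ v ∈ Bad, lN v + ∑ v ∈ W, lN v := by
      have h4 : ∑ v ∈ Bad ∪ W, lN v + ∑ v ∈ Bad ∩ W, lN v = ∑ v ∈ Bad, lN v + ∑ v ∈ W, lN v :=
        Finset.sum_union_inter
      have h5 : 0 ≤ ∑ v ∈ Bad ∩ W, lN v := Finset.sum_nonneg fun v _ => Real.log_natCast_nonneg _
      linarith
    have h6 : ∑ w ∈ sF (Units.mk0 _ hzL), lN w ≤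
        finrank k L * ∑ v ∈ Bad, lN v + finrank k L * Z := by
      refine h2.trans ?_
      rw [← mul_add]
      exact mul_le_mul_of_nonneg_left (by linarith) (Nat.cast_nonneg _)
    calc Real.exp (∑ w ∈ sF (Units.mk0 _ hzL), lN w) ≤
          Real.exp (finrank k L * ∑ v ∈ Bad, lN v + finrank k L * Z) := Real.exp_le_exp.2 h6
      _ = C₂ * Real.exp (finrank k L * Z) := by rw [Real.exp_add]
      _ ≤ _ := mul_le_mul_of_nonneg_right (le_max_right _ _) (Real.exp_pos _).le

/-- the elements of the box for which all the values have small radicals -/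
def EWk {m q : ℕ} (L : Fin q → Type) [∀ j, Field (L j)] [∀ j, NumberField (L j)]
    [∀ j, Algebra K (L j)] [∀ j, Algebra k (L j)] (γ : ∀ j, Fin m → L j)
    (Bad : Finset (HeightOneSpectrum (𝓞 k)))
    (B : ℕ) (Z : ℝ) : Set (Fin m → 𝓞 K) :=
  {c | c ∈ Bx K m B ∧ ∀ j, (∑ i, algebraMap K (L j) (c i : K) * γ j i) ≠ 0 ∧
    ∃ W : Finset (HeightOneSpectrum (𝓞 k)),
      (∀ v ∉ Bad, ∀ w : HeightOneSpectrum (𝓞 (L j)), w.asIdeal.LiesOver v.asIdeal →
        w.valuation (L j) (∑ i, algebraMap K (L j) (c i : K) * γ j i) < 1 → v ∈ W) ∧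
      ∑ v ∈ W, lN v ≤ Z}

theorem coreWk {m q : ℕ} (L : Fin q → Type) [∀ j, Field (L j)] [∀ j, NumberField (L j)]
    [∀ j, Algebra K (L j)] [∀ j, Algebra k (L j)] (γ : ∀ j, Fin m → L j)
    (Bad : Finset (HeightOneSpectrum (𝓞 k)))
    {ε : ℝ} (hε : 0 < ε) :
    ∃ C : ℝ, 0 < C ∧ ∀ (B : ℕ) (Z : ℝ), 1 ≤ B → 0 ≤ Z → ((EWk (K := K) L γ Bad B Z).ncard : ℝ) ≤
      C * (B : ℝ) ^ ((finrank ℚ K : ℝ) * (m - rk K L γ : ℕ) + ε) *
        Real.exp (2 * (∑ j, (finrank k (L j) : ℝ)) * Z) := by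
  classical
  choose t β ht hβ using fun j => exists_den (γ j)
  set Bd : Fin q → Finset (HeightOneSpectrum (𝓞 k)) := fun j =>
    Bad ∪ (Pool.Agent.N262.DR.badS_finite (K := k) {t j}).toFinset with hBd
  choose C hC1 hC using fun j => one_fieldk (K := K) (k := k) (β j) (Bd j)
  set N : ℝ := ∑ j, (finrank ℚ (L j) : ℝ) with hN
  have hN0 : 0 ≤ N := Finset.sum_nonneg fun j _ => Nat.cast_nonneg _
  set δ : ℝ := min 1 (ε / (1 + N)) with hδ
  have hδ0 : 0 < δ := lt_min one_pos (by positivity)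
  have hδN : δ * N ≤ ε := by
    have h1 : δ ≤ ε / (1 + N) := min_le_right _ _
    calc δ * N ≤ ε / (1 + N) * N := mul_le_mul_of_nonneg_right h1 hN0
      _ ≤ ε / (1 + N) * (1 + N) := mul_le_mul_of_nonneg_left (by linarith) (by positivity)
      _ = ε := by field_simp
  choose D hD0 hD using fun j => VS_card (L := L j) hδ0 (min_le_left _ _)
  set ρ := rk K L γ with hρ
  refine ⟨3 ^ (finrank ℚ K * (m - ρ)) * ∏ j, (D j * (C j ^ 2 * C j ^ finrank ℚ (L j))), ?_, ?_⟩
  · have : ∀ j, 0 < D j * (C j ^ 2 * C j ^ finrank ℚ (L j)) := fun j => by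
      have h1 := hD0 j
      have h2 : 0 < C j := lt_of_lt_of_le one_pos (hC1 j)
      positivity
    exact mul_pos (by positivity) (Finset.prod_pos fun j _ => this j)
  intro B Z hB hZ
  have hB1 : (1 : ℝ) ≤ B := by exact_mod_cast hB
  have hB0 : (0 : ℝ) < B := by linarith
  have hEf : (EWk (K := K) L γ Bad B Z).Finite :=
    (Pool.Agent.N262.DR.Bx_finite (K := K) m B).subset fun c hc => hc.1
  -- the values
  have hval : ∀ (c : Fin m → 𝓞 K) (j : Fin q), ((evB K (β j) c : 𝓞 (L j)) : L j) =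
      t j * ∑ i, algebraMap K (L j) (c i : K) * γ j i := by
    intro c j
    change algebraMap (𝓞 (L j)) (L j) (∑ i, algebraMap (𝓞 K) (𝓞 (L j)) (c i) * β j i) = _
    rw [map_sum, Finset.mul_sum]
    refine Finset.sum_congr rfl fun i _ => ?_
    rw [map_mul]
    have h1 : algebraMap (𝓞 (L j)) (L j) (algebraMap (𝓞 K) (𝓞 (L j)) (c i)) =
        algebraMap K (L j) (c i : K) := rfl
    have h2 : algebraMap (𝓞 (L j)) (L j) (β j i) = t j * γ j i := hβ j i
    rw [h1, h2]
    ring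
  have hy : ∀ c ∈ EWk (K := K) L γ Bad B Z, ∀ j, ∃ y : (L j)ˣ,
      (y : L j) = t j * ∑ i, algebraMap K (L j) (c i : K) * γ j i ∧
      y ∈ VS (L j) ((C j * B) ^ finrank ℚ (L j)) (C j * Real.exp (finrank k (L j) * Z)) := by
    rintro c ⟨hcB, hc⟩ j
    obtain ⟨hne, W, hW, hWZ⟩ := hc j
    have htj : (t j : L j) ≠ 0 := by exact_mod_cast ht j
    have hz : evB K (β j) c ≠ 0 := by
      intro h
      have h1 := hval c j
      rw [h] at h1
      have h2 : ((0 : 𝓞 (L j)) : L j) = 0 := map_zero _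
      rw [h2] at h1
      exact mul_ne_zero htj hne h1.symm
    obtain ⟨y, hy1, hy2, hy3⟩ := hC j B c hB hcB hz W Z (by
      intro v hv w hw hmem
      have hv1 : v ∉ Bad := fun h => hv (Finset.mem_union_left _ h)
      have hv2 : (t j : 𝓞 k) ∉ v.asIdeal := by
        intro h
        apply hv
        rw [hBd]
        refine Finset.mem_union_right _ ?_
        rw [Set.Finite.mem_toFinset]
        exact ⟨t j, Finset.mem_singleton_self _, ht j, h⟩
      refine hW v hv1 w hw ?_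
      have h3 : w.valuation (L j) ((evB K (β j) c : 𝓞 (L j)) : L j) < 1 :=
        (w.valuation_lt_one_iff_mem (K := L j) _).2 hmem
      rw [hval c j, map_mul] at h3
      have h4 : w.valuation (L j) (t j : L j) = 1 := by
        have h5 : (t j : 𝓞 (L j)) ∉ w.asIdeal := by
          intro h6
          apply hv2
          rw [Ideal.mem_of_liesOver w.asIdeal v.asIdeal, map_natCast]
          exact h6
        have h7 : w.valuation (L j) ((t j : 𝓞 (L j)) : L j) ≤ 1 := w.valuation_le_one _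
        have h8 : ¬ w.valuation (L j) ((t j : 𝓞 (L j)) : L j) < 1 := fun h9 =>
          h5 ((w.valuation_lt_one_iff_mem (K := L j) _).1 h9)
        have h10 : ((t j : 𝓞 (L j)) : L j) = (t j : L j) := map_natCast _ _
        rw [h10] at h7 h8
        exact le_antisymm h7 (not_lt.1 h8)
      rwa [h4, one_mul] at h3) hWZ
    exact ⟨y, by rw [hy1]; exact hval c j, hy2, hy3⟩
  choose! Y hY1 hY2 using hy
  -- the box of the values
  let F : Finset (∀ j, (L j)ˣ) := Fintype.piFinset fun j =>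
    (VS_finite (L := L j) ((C j * B) ^ finrank ℚ (L j))
      (C j * Real.exp (finrank k (L j) * Z))).toFinset
  have hcard : (EWk (K := K) L γ Bad B Z).ncard ≤ (2 * B + 1) ^ (finrank ℚ K * (m - ρ)) * F.card := by
    rw [Set.ncard_eq_toFinset_card _ hEf]
    refine Finset.card_le_mul_card_image_of_maps_to (f := fun c j => Y c j) ?_ _ ?_
    · intro c hc
      rw [Set.Finite.mem_toFinset] at hc
      rw [Fintype.mem_piFinset]
      intro j
      rw [Set.Finite.mem_toFinset]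
      exact hY2 c hc j
    · intro y _
      have h1 := fibre (K := K) (V := ∀ j, L j) (fun i : Fin m => (fun j => γ j i : ∀ j, L j)) B
        {c | c ∈ EWk (K := K) L γ Bad B Z ∧ (fun j => Y c j) = y} (fun c hc => hc.1.1) (by
          rintro c ⟨hc, hcy⟩ c' ⟨hc', hcy'⟩
          funext j
          rw [Finset.sum_apply, Finset.sum_apply]
          have h2 := hY1 c hc j
          have h3 := hY1 c' hc' j
          have h4 : Y c j = Y c' j := (congrFun hcy j).trans (congrFun hcy' j).symm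
          rw [h4, h3] at h2
          have h5 := mul_left_cancel₀ (by exact_mod_cast ht j : (t j : L j) ≠ 0) h2
          simp only [Pi.smul_apply, Algebra.smul_def]
          exact h5.symm)
      refine le_trans (le_of_eq ?_) h1
      rw [← Set.ncard_coe_finset]
      congr 1
      ext c
      rw [Finset.mem_coe, Finset.mem_filter, Set.Finite.mem_toFinset]
      rfl
  have hFc : (F.card : ℝ) ≤ (∏ j, (D j * (C j ^ 2 * C j ^ finrank ℚ (L j)))) *
      Real.exp (2 * (∑ j, (finrank k (L j) : ℝ)) * Z) * (B : ℝ) ^ ε := by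
    rw [Fintype.card_piFinset, Nat.cast_prod]
    have h1 : ∀ j, (((VS_finite (L := L j) ((C j * B) ^ finrank ℚ (L j))
        (C j * Real.exp (finrank k (L j) * Z))).toFinset.card : ℕ) : ℝ) ≤
        (D j * (C j ^ 2 * C j ^ finrank ℚ (L j))) * Real.exp (2 * (finrank k (L j) * Z)) *
          (B : ℝ) ^ (δ * finrank ℚ (L j)) := by
      intro j
      rw [← Set.ncard_eq_toFinset_card _ (VS_finite _ _)]
      have h2 := hD j (C j) B (Real.exp (finrank k (L j) * Z)) (hC1 j) hB1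
        (Real.one_le_exp (by positivity))
      rwa [← Real.exp_nat_mul, Nat.cast_ofNat] at h2
    refine (Finset.prod_le_prod (fun j _ => Nat.cast_nonneg _) fun j _ => h1 j).trans ?_
    rw [Finset.prod_mul_distrib, Finset.prod_mul_distrib, ← Real.exp_sum,
      ← Real.rpow_sum_of_pos hB0]
    have e1 : ∑ j, 2 * ((finrank k (L j) : ℝ) * Z) = 2 * (∑ j, (finrank k (L j) : ℝ)) * Z := by
      rw [← Finset.mul_sum, ← Finset.sum_mul]; ring
    have e2 : ∑ j, δ * (finrank ℚ (L j) : ℝ) = δ * N := by rw [hN, Finset.mul_sum]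
    rw [e1, e2]
    have hP : 0 ≤ ∏ j, (D j * (C j ^ 2 * C j ^ finrank ℚ (L j))) :=
      Finset.prod_nonneg fun j _ => by
        have h1 := hD0 j
        have h2 : 0 < C j := lt_of_lt_of_le one_pos (hC1 j)
        positivity
    exact mul_le_mul_of_nonneg_left (Real.rpow_le_rpow_of_exponent_le hB1 hδN) (by positivity)
  have hbox : (((2 * B + 1) ^ (finrank ℚ K * (m - ρ)) : ℕ) : ℝ) ≤
      3 ^ (finrank ℚ K * (m - ρ)) * (B : ℝ) ^ (finrank ℚ K * (m - ρ)) := by
    rw [← mul_pow]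
    push_cast
    exact pow_le_pow_left₀ (by positivity) (by linarith) _
  calc ((EWk (K := K) L γ Bad B Z).ncard : ℝ) ≤
        (((2 * B + 1) ^ (finrank ℚ K * (m - ρ)) : ℕ) : ℝ) * (F.card : ℝ) := by exact_mod_cast hcard
    _ ≤ (3 ^ (finrank ℚ K * (m - ρ)) * (B : ℝ) ^ (finrank ℚ K * (m - ρ))) *
        ((∏ j, (D j * (C j ^ 2 * C j ^ finrank ℚ (L j)))) *
          Real.exp (2 * (∑ j, (finrank k (L j) : ℝ)) * Z) * (B : ℝ) ^ ε) := by
        refine mul_le_mul hbox hFc (Nat.cast_nonneg _) (by positivity)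
    _ = _ := by
        have e1 : (B : ℝ) ^ ((finrank ℚ K : ℝ) * (m - ρ : ℕ) + ε) =
            (B : ℝ) ^ (finrank ℚ K * (m - ρ)) * (B : ℝ) ^ ε := by
          rw [Real.rpow_add hB0, ← Real.rpow_natCast (B : ℝ) (finrank ℚ K * (m - ρ))]
          congr 2
          push_cast
          ring
        rw [e1]
        ring

end Pool.Agent.J6H60.DR
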