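import Mathlib
import Pool.Agent.J6H60.DR.CoreW3
import Pool.Agent.N488.CV.LinkC
import Pool.Agent.N498.CV.Redc
import Pool.Agent.N297.CV.MainC

/-!
# Closed points in linear systems on curves: few members have small truncated counting functions
-/

set_option autoImplicit false
set_option linter.unusedSectionVars false

namespace Pool.Agent.J6H60.DR

open NumberField IsDedekindDomain Module Polynomial Pool.Agent.N753.DR Height
open Pool.Agent.N262.DR (lN_nonneg sum_under_le over_eq badS_finite pow_bound Bx_finite)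
open scoped LinearAlgebra.Projectivization

/-- a closed point of an affine variety: a surjective homomorphism to a number field -/
structure Pnt (K A : Type) [Field K] [CommRing A] [Algebra K A] where
  /-- the residue field -/
  L : Type
  [fL : Field L]
  [nL : NumberField L]
  [aL : Algebra K L]
  /-- the values of the functions -/
  ψ : A →ₐ[K] L
  surj : Function.Surjective ψ

attribute [instance] Pnt.fL Pnt.nL Pnt.aL

/-- the number of conditions which the points impose on the linear system: the rank of the vectors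
of the values -/
noncomputable def cnd {K A : Type} [Field K] [CommRing A] [Algebra K A] {q m : ℕ}
    (x : Fin q → Pnt K A) (f : Fin m → A) : ℕ :=
  rk K (fun j => (x j).L) (fun j i => (x j).ψ (f i))

variable {K A : Type} [Field K] [NumberField K] [CommRing A] [IsDomain A]
  [Algebra K A] [Algebra K[X] A] [IsScalarTower K K[X] A] [Module.Finite K[X] A]
  [FaithfulSMul K[X] A]

/-- the zero of the member `P` is a closed point different from all the given ones, and all the
truncated counting functions are at most `δ` times the height -/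
def BadV {m q : ℕ} (u : Fin q → ℕ) (f : Fin m → A) (g : ∀ j, Fin (u j) → A) (S : Finset ℕ) (δ : ℝ)
    (P : ℙ K (Fin m → K)) : Prop :=
  ∃ (M : Type) (_ : Field M) (_ : NumberField M) (_ : Algebra K M) (φ : A →ₐ[K] M),
    Function.Surjective φ ∧ RingHom.ker φ = Ideal.span {mem f P.rep} ∧
    ∀ j, RingHom.ker φ ≠ Ideal.span (Set.range (g j)) ∧
    ∃ W : Finset (HeightOneSpectrum (𝓞 M)), (∀ w, NearC S (g j) φ w → w ∈ W) ∧
      ∑ w ∈ W, lN w ≤ δ * Height.logHeight P.rep

theorem cntV (hdom : IsDomain (TensorProduct K (AlgebraicClosure K) A)) {m q : ℕ}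
    (f : Fin m → A) (hf : LinearIndependent K f) (x : Fin q → Pnt K A) (u : Fin q → ℕ)
    (g : ∀ j, Fin (u j) → A) (hg : ∀ j, RingHom.ker (x j).ψ = Ideal.span (Set.range (g j)))
    (S : Finset ℕ) (δ : ℝ) (hδ : 0 ≤ δ) {ε : ℝ} (hε : 0 < ε) :
    ∃ C : ℝ, 0 < C ∧ ∀ U : ℝ, 0 ≤ U →
      {P : ℙ K (Fin m → K) | BadV u f g S δ P ∧ Height.logHeight P.rep ≤ U}.Finite ∧
      ({P : ℙ K (Fin m → K) | BadV u f g S δ P ∧ Height.logHeight P.rep ≤ U}.ncard : ℝ) ≤
        C * Real.exp ((((m - cnd x f : ℕ) : ℝ) + ε +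
          2 * (∑ j, (finrank K (x j).L : ℝ)) * δ) * U) := by
  classical
  have hg0 : ∀ j i, (x j).ψ (g j i) = 0 := by
    intro j i
    have : g j i ∈ RingHom.ker (x j).ψ := by
      rw [hg j]; exact Ideal.subset_span ⟨i, rfl⟩
    exact this
  obtain ⟨BadR, C0, hC0, hR⟩ := Pool.Agent.N498.CV.t K m
  choose Bad0 hL using fun j => Pool.Agent.N488.CV.t K A (x j).L hdom m (u j) f hf (x j).ψ (g j)
    (hg0 j)
  set BadS := (badS_finite (K := K) S).toFinset with hBadS
  set Bad := (Finset.univ.biUnion Bad0) ∪ BadR ∪ BadS with hBad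
  set n : ℝ := (finrank ℚ K : ℝ) with hn
  have hn0 : 0 < n := by
    rw [hn]; exact_mod_cast (Module.finrank_pos : 0 < finrank ℚ K)
  obtain ⟨C1, hC1, hcore⟩ := coreW (K := K) (m := m) (fun j => (x j).L)
    (fun j i => (x j).ψ (f i)) Bad (ε := n * ε) (by positivity)
  set c0 : ℝ := max C0 1 with hc0
  have hc01 : 1 ≤ c0 := le_max_right _ _
  set ρ := cnd x f with hρ
  set e : ℝ := n * ((m - ρ : ℕ) : ℝ) + n * ε with he
  have he0 : 0 ≤ e := by positivity
  set s : ℝ := ∑ j, (finrank K (x j).L : ℝ) with hs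
  refine ⟨C1 * (2 * c0) ^ |e|, by positivity, fun U hU => ?_⟩
  set y : ℝ := Real.exp (U / n) with hy
  have hy1 : 1 ≤ y := Real.one_le_exp (by positivity)
  set B : ℕ := ⌈c0 * y⌉₊ with hB
  have hBl : c0 * y ≤ B := Nat.le_ceil _
  have hBu : (B : ℝ) ≤ 2 * c0 * y := by
    have := Nat.ceil_lt_add_one (a := c0 * y) (by positivity)
    have : 1 ≤ c0 * y := one_le_mul_of_one_le_of_one_le hc01 hy1
    linarith
  have hyB : y ≤ B := by
    have : 1 * y ≤ c0 * y := mul_le_mul_of_nonneg_right hc01 (by positivity)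
    linarith
  have hB1 : 1 ≤ B := by
    have : (1 : ℝ) ≤ B := hy1.trans hyB
    exact_mod_cast this
  set E := EW (fun j => (x j).L) (fun j i => (x j).ψ (f i)) Bad B (δ * U) with hE
  have hEf : E.Finite := (Bx_finite (K := K) m B).subset fun c hc => hc.1
  set T : Set (ℙ K (Fin m → K)) := {P | BadV u f g S δ P ∧
    Height.logHeight P.rep ≤ U} with hT
  have key : ∀ P ∈ T, ∃ c ∈ E, ∃ l : K, l ≠ 0 ∧ ∀ i, (c i : K) = l * P.rep i := by
    rintro P ⟨⟨M, _, _, _, φ, hφ, hker, hW⟩, hht⟩
    obtain ⟨c, l, hl, hcl, hprim, hsz⟩ := hR P.rep P.rep_nonzero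
    have hmem : (mem f fun i => (c i : K)) = algebraMap K A l * mem f P.rep := by
      unfold mem
      rw [Finset.mul_sum]
      refine Finset.sum_congr rfl fun i _ => ?_
      show (c i : K) • f i = algebraMap K A l * (P.rep i • f i)
      rw [hcl i, mul_smul, Algebra.smul_def l]
    have hlu : IsUnit (algebraMap K A l) := (isUnit_iff_ne_zero.2 hl).map _
    have hker' : RingHom.ker φ = Ideal.span {mem f fun i => (c i : K)} := by
      rw [hker, hmem, Ideal.span_singleton_mul_left_unit hlu]
    have heval : ∀ j, (x j).ψ (mem f fun i => (c i : K)) =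
        ∑ i, algebraMap K (x j).L (c i : K) * (x j).ψ (f i) := by
      intro j
      unfold mem
      rw [map_sum]
      refine Finset.sum_congr rfl fun i _ => ?_
      rw [map_smul, Algebra.smul_def]
    refine ⟨c, ⟨?_, ?_⟩, l, hl, hcl⟩
    · intro j
      have h4 := hsz j
      have h5 : Real.exp (Height.logHeight P.rep / n) ≤ y :=
        Real.exp_le_exp.mpr (div_le_div_of_nonneg_right hht hn0.le)
      have h6 : (sz (c j) : ℝ) ≤ B := by
        refine h4.trans (le_trans ?_ hBl)
        exact mul_le_mul (le_max_left _ _) h5 (Real.exp_pos _).le (by positivity)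
      exact_mod_cast h6
    · intro j
      obtain ⟨hne, W, hW1, hWs⟩ := hW j
      refine ⟨?_, W.image fun u => HeightOneSpectrum.under (𝓞 K) u, ?_, ?_⟩
      · intro h0
        rw [← heval j] at h0
        apply hne
        rw [← hg j]
        have hmax : (RingHom.ker φ).IsMaximal := RingHom.ker_isMaximal_of_surjective φ hφ
        refine hmax.eq_of_le (RingHom.ker_ne_top _) ?_
        rw [hker', Ideal.span_singleton_le_iff_mem]
        exact h0
      · intro v hv w hw hev
        have hvR : v ∉ BadR := fun h => hv (by simp only [hBad, Finset.mem_union]; tauto)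
        have hvL : v ∉ Bad0 j := fun h => hv (by
          simp only [hBad, Finset.mem_union]
          exact Or.inl (Or.inl (Finset.mem_biUnion.2 ⟨j, Finset.mem_univ _, h⟩)))
        have hvS : v ∉ BadS := fun h => hv (by simp only [hBad, Finset.mem_union]; tauto)
        have hev' : w.valuation (x j).L ((x j).ψ (mem f fun i => (c i : K))) < 1 := by
          rw [heval j]
          exact hev
        obtain ⟨x', hx, hxX, hxg⟩ := hL j M φ c hφ hker' v hvL (hprim v hvR) w hw hev'
        have hunder := over_eq hx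
        rw [Finset.mem_image]
        refine ⟨x', hW1 x' ⟨?_, hxX, hxg⟩, hunder⟩
        intro p hp hp0 hmem
        apply hvS
        rw [hBadS, Set.Finite.mem_toFinset]
        refine ⟨p, hp, hp0, ?_⟩
        rw [← hunder, HeightOneSpectrum.under_asIdeal, Ideal.under_def, Ideal.mem_comap,
          map_natCast]
        exact hmem
      · have h4 : ∑ v ∈ W.image (fun u => HeightOneSpectrum.under (𝓞 K) u), lN v ≤
            ∑ u ∈ W, lN u := sum_under_le W _ fun v hv => Finset.mem_image.mp hv
        exact h4.trans (hWs.trans (mul_le_mul_of_nonneg_left hht hδ))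
  choose! F hFE hFl using key
  have hinj : Set.InjOn F T := by
    intro P hP P' hP' hPP
    obtain ⟨l, hl, h⟩ := hFl P hP
    obtain ⟨l', hl', h'⟩ := hFl P' hP'
    rw [← P.mk_rep, ← P'.mk_rep, Projectivization.mk_eq_mk_iff']
    refine ⟨l⁻¹ * l', ?_⟩
    funext i
    have e : l * P.rep i = l' * P'.rep i := by rw [← h i, ← h' i, hPP]
    rw [Pi.smul_apply, smul_eq_mul, mul_assoc, ← e, ← mul_assoc, inv_mul_cancel₀ hl, one_mul]
  have hmaps : Set.MapsTo F T E := fun P hP => hFE P hP
  refine ⟨Set.Finite.of_injOn hmaps hinj hEf, ?_⟩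
  have h4 : (T.ncard : ℝ) ≤ (E.ncard : ℝ) := by
    exact_mod_cast Set.ncard_le_ncard_of_injOn F hFE hinj hEf
  refine h4.trans ((hcore B (δ * U) hB1 (by positivity)).trans ?_)
  have h5 := pow_bound (c := 2 * c0) (B := B) (y := y) (E := e) (by linarith)
    (by positivity) hyB hBu
  have h6 : y ^ e = Real.exp ((((m - ρ : ℕ) : ℝ) + ε) * U) := by
    rw [hy, ← Real.exp_mul, he]
    congr 1
    field_simp
  rw [h6] at h5
  calc C1 * (B : ℝ) ^ ((finrank ℚ K : ℝ) * (m - ρ : ℕ) + n * ε) *
        Real.exp (2 * s * (δ * U))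
      ≤ C1 * ((2 * c0) ^ |e| * Real.exp ((((m - ρ : ℕ) : ℝ) + ε) * U)) *
        Real.exp (2 * s * (δ * U)) := by
        refine mul_le_mul_of_nonneg_right (mul_le_mul_of_nonneg_left h5 hC1.le)
          (Real.exp_pos _).le
    _ = C1 * (2 * c0) ^ |e| * (Real.exp ((((m - ρ : ℕ) : ℝ) + ε) * U) *
        Real.exp (2 * s * (δ * U))) := by ring
    _ = _ := by
        rw [← Real.exp_add]
        congr 2
        ring

end Pool.Agent.J6H60.DR
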