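import Mathlib
import Pool.Agent.J6H60.DR.CurveW1
import Pool.Agent.N572.DR.Diag

/-!
# Closed points in linear systems on curves: one exceptional set
-/

set_option autoImplicit false
set_option linter.unusedSectionVars false

namespace Pool.Agent.J6H60.DR

open NumberField IsDedekindDomain Module Polynomial Pool.Agent.N753.DR Height
open scoped LinearAlgebra.Projectivization

variable {K A : Type} [Field K] [NumberField K] [CommRing A] [IsDomain A]
  [Algebra K A] [Algebra K[X] A] [IsScalarTower K K[X] A] [Module.Finite K[X] A]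
  [FaithfulSMul K[X] A]

/-- `g` are equations of closed points which impose at least `ρ` conditions on the system -/
def Eqs {m : ℕ} (f : Fin m → A) (ρ : ℕ) {q : ℕ} (u : Fin q → ℕ) (g : ∀ j, Fin (u j) → A)
    (s : ℕ) : Prop :=
  ∃ x : Fin q → Pnt K A, (∀ j, RingHom.ker (x j).ψ = Ideal.span (Set.range (g j))) ∧
    ρ ≤ cnd x f ∧ ∑ j, finrank K (x j).L = s

/-- finitely many primes at which `φ` meets a closed point -/
theorem near_finite {u : ℕ} (g : Fin u → A) (hg : (Ideal.span (Set.range g)).IsMaximal)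
    (S : Finset ℕ) {M : Type} [Field M] [NumberField M] [Algebra K M] (φ : A →ₐ[K] M)
    (hφ : RingHom.ker φ ≠ Ideal.span (Set.range g)) :
    (∃ l, φ (g l) ≠ 0) ∧ {w : HeightOneSpectrum (𝓞 M) | NearC S g φ w}.Finite := by
  have hexi : ∃ l, φ (g l) ≠ 0 := by
    by_contra hcon
    push Not at hcon
    have hle : Ideal.span (Set.range g) ≤ RingHom.ker φ := by
      rw [Ideal.span_le]
      rintro _ ⟨l, rfl⟩
      exact hcon l
    exact hφ (hg.eq_of_le (RingHom.ker_ne_top _) hle).symm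
  refine ⟨hexi, ?_⟩
  obtain ⟨l, hl⟩ := hexi
  exact (Pool.Agent.N297.CV.MainC.val_fin hl).subset fun w hw => hw.2.2 l

/-- one exceptional set -/
theorem oneV (hdom : IsDomain (TensorProduct K (AlgebraicClosure K) A)) {m : ℕ}
    (f : Fin m → A) (hf : LinearIndependent K f) (ρ : ℕ) {ε : ℝ} (hε : 0 < ε) :
    ∃ E : Set (ℙ K (Fin m → K)),
      (∀ U : ℝ, 0 ≤ U → {P | P ∈ E ∧ Height.logHeight P.rep ≤ U}.Finite ∧
        ({P | P ∈ E ∧ Height.logHeight P.rep ≤ U}.ncard : ℝ) ≤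
          Real.exp ((((m - ρ : ℕ) : ℝ) + ε) * U - √U)) ∧
      ∀ (q : ℕ) (x : Fin q → Pnt K A) (u : Fin q → ℕ) (g : ∀ j, Fin (u j) → A) (S : Finset ℕ),
        (∀ j, RingHom.ker (x j).ψ = Ideal.span (Set.range (g j))) → ρ ≤ cnd x f →
        ∃ U₀ : ℝ, 0 ≤ U₀ ∧
        ∀ (M : Type) [Field M] [NumberField M] [Algebra K M] (φ : A →ₐ[K] M)
          (P : ℙ K (Fin m → K)), P ∉ E → Function.Surjective φ →
          RingHom.ker φ = Ideal.span {mem f P.rep} → U₀ < Height.logHeight P.rep →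
          (∀ j, RingHom.ker φ ≠ RingHom.ker (x j).ψ) →
          ∃ (j : Fin q) (W : Finset (HeightOneSpectrum (𝓞 M))), (∀ w ∈ W, NearC S (g j) φ w) ∧
            ε / (8 * (1 + (∑ j, finrank K (x j).L : ℕ))) * Height.logHeight P.rep ≤
              ∑ w ∈ W, lN w := by
  classical
  have hcA := Pool.Agent.N297.CV.MainC.countable_A K A
  let Jt : Type := {t : (Σ q : ℕ, Σ u : Fin q → ℕ, (∀ j, Fin (u j) → A) × Finset ℕ × ℕ) //
    Eqs (K := K) f ρ t.2.1 t.2.2.1 t.2.2.2.2}
  have hJ : Countable Jt := inferInstance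
  let AA : Jt → ℙ K (Fin m → K) → Prop := fun t P =>
    BadV t.1.2.1 f t.1.2.2.1 t.1.2.2.2.1 (ε / (8 * (1 + (t.1.2.2.2.2 : ℝ)))) P
  obtain ⟨E, hE1, hE2⟩ := Pool.Agent.N572.DR.Diag.t (ℙ K (Fin m → K)) Jt
    (fun U P => Height.logHeight P.rep ≤ U)
    (fun U U' P h hP => hP.trans h) AA (((m - ρ : ℕ) : ℝ) + ε) (by positivity) (by
      rintro ⟨⟨q, u, g, S, s⟩, hEq⟩
      obtain ⟨x, hx1, hx2, hx3⟩ := id hEq
      simp only at hx1 hx2 hx3
      have hδ : 0 ≤ ε / (8 * (1 + (s : ℝ))) := by positivity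
      obtain ⟨C, hC, h⟩ := cntV hdom f hf x u g hx1 S (ε / (8 * (1 + (s : ℝ)))) hδ
        (ε := ε / 4) (by positivity)
      refine ⟨ε / 2, C, by positivity, fun U hU => ?_⟩
      obtain ⟨h1, h2⟩ := h U hU
      refine ⟨h1, h2.trans (mul_le_mul_of_nonneg_left (Real.exp_le_exp.2 ?_) hC.le)⟩
      refine mul_le_mul_of_nonneg_right ?_ hU
      have e0 : (∑ j, (finrank K (x j).L : ℝ)) = (s : ℝ) := by
        rw [← hx3, Nat.cast_sum]
      rw [e0]
      have e1 : ((m - cnd x f : ℕ) : ℝ) ≤ ((m - ρ : ℕ) : ℝ) := by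
        exact_mod_cast (by omega : m - cnd x f ≤ m - ρ)
      have e2 : 2 * (s : ℝ) * (ε / (8 * (1 + s))) ≤ ε / 4 := by
        have h3 : (0 : ℝ) < 1 + s := by positivity
        rw [show 2 * (s : ℝ) * (ε / (8 * (1 + s))) = (ε / 4) * (s / (1 + s)) by
          field_simp; ring]
        refine mul_le_of_le_one_right (by positivity) ?_
        rw [div_le_one h3]; linarith
      linarith)
  refine ⟨E, hE1, ?_⟩
  intro q x u g S hg hρ
  obtain ⟨U₀, hU₀, h⟩ := hE2 ⟨⟨q, u, g, S, ∑ j, finrank K (x j).L⟩, x, hg, hρ, rfl⟩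
  refine ⟨U₀, hU₀, ?_⟩
  intro M _ _ _ φ P hP hφ hker hht hne
  by_contra hcon
  push Not at hcon
  have hmax : ∀ j, (Ideal.span (Set.range (g j))).IsMaximal := fun j => by
    rw [← hg j]
    exact RingHom.ker_isMaximal_of_surjective _ (x j).surj
  have hbad : AA ⟨⟨q, u, g, S, ∑ j, finrank K (x j).L⟩, x, hg, hρ, rfl⟩ P := by
    refine ⟨M, inferInstance, inferInstance, inferInstance, φ, hφ, hker, fun j =>
      ⟨fun h => hne j (h.trans (hg j).symm), ?_⟩⟩
    have hfin := (near_finite (g j) (hmax j) S φ (fun h => hne j (h.trans (hg j).symm))).2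
    refine ⟨hfin.toFinset, fun w hw => ?_, ?_⟩
    · rw [Set.Finite.mem_toFinset]
      exact hw
    · exact (hcon j hfin.toFinset fun w hw => by
        rw [Set.Finite.mem_toFinset] at hw
        exact hw).le
  exact absurd (h P hP hbad) (not_le.2 hht)

end Pool.Agent.J6H60.DR
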