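import Mathlib
import Pool.Agent.J6H60.DR.CurveW2
import Pool.Agent.N751.LS.Pole
import Pool.Agent.N265.CV.Htc

/-!
# Closed points in linear systems on curves: heights of values, the alternative
-/

set_option autoImplicit false
set_option linter.unusedSectionVars false

namespace Pool.Agent.J6H60.DR

open NumberField IsDedekindDomain Module Polynomial Pool.Agent.N753.DR Height
open Pool.Agent.N751.LS
open scoped LinearAlgebra.Projectivization

variable {K A : Type} [Field K] [NumberField K] [CommRing A] [IsDomain A]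
  [Algebra K A] [Algebra K[X] A] [IsScalarTower K K[X] A] [Module.Finite K[X] A]
  [FaithfulSMul K[X] A]

/-- `J = F / G` -/
def IsRep (J : FractionRing A) (F G : A) : Prop :=
  algebraMap A (FractionRing A) F = J * algebraMap A (FractionRing A) G

/-- the height of the value of a function -/
theorem ht_fun (J : FractionRing A) : ∃ (m : ℕ) (C : ℝ) (R : K[X]), 0 ≤ C ∧ R ≠ 0 ∧
    ∀ (M : Type) [Field M] [NumberField M] [Algebra K M] (φ : A →ₐ[K] M) (F G : A),
      IsRep J F G → φ G ≠ 0 → aeval (φ (algebraMap K[X] A X)) R ≠ 0 →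
      logHeight₁ (φ F / φ G) ≤ m * logHeight₁ (φ (algebraMap K[X] A X)) + finrank ℚ M * C := by
  classical
  obtain ⟨F₀, G₀, hG₀, hJ⟩ := IsFractionRing.div_surjective (A := A) J
  have hG0 : G₀ ≠ 0 := nonZeroDivisors.ne_zero hG₀
  have halgA : ∀ a : A, IsAlgebraic K[X] a := fun a => (Algebra.IsIntegral.isIntegral a).isAlgebraic
  have halg : IsAlgebraic K[X] J := by
    have h1 : IsAlgebraic K[X] (algebraMap A (FractionRing A) F₀) := (halgA F₀).algebraMap
    have h2 : IsAlgebraic K[X] (algebraMap A (FractionRing A) G₀) := (halgA G₀).algebraMap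
    rw [← hJ, div_eq_mul_inv]
    exact h1.mul h2.inv
  obtain ⟨p, hp0, hp⟩ := halg
  set k := p.natDegree with hk
  set m := (Finset.range (k + 1)).sup fun i => (p.coeff i).natDegree with hm
  have hdeg : ∀ i, (p.coeff i).natDegree ≤ m := by
    intro i
    by_cases hi : i ≤ k
    · exact Finset.le_sup (f := fun i => (p.coeff i).natDegree) (Finset.mem_range.2 (by omega))
    · rw [coeff_eq_zero_of_natDegree_lt (by omega), natDegree_zero]
      exact Nat.zero_le _
  obtain ⟨C, hC, h⟩ := ht_rel k m (fun i => p.coeff i) hdeg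
  refine ⟨m, C, p.coeff k, hC, leadingCoeff_ne_zero.2 hp0, ?_⟩
  intro M _ _ _ φ F G hFG hG hR
  refine h M (φ (algebraMap K[X] A X)) (φ F / φ G) hR ?_
  have hGne : G ≠ 0 := by
    rintro rfl
    exact hG (map_zero φ)
  have hmapP : ∀ r : K[X], φ (algebraMap K[X] A r) = aeval (φ (algebraMap K[X] A X)) r :=
    fun r => Pool.Agent.N776.CV.map_poly φ r
  -- the relation in `A`
  have hrel : ∑ i ∈ Finset.range (k + 1), algebraMap K[X] A (p.coeff i) * F ^ i * G ^ (k - i) =
      0 := by
    apply IsFractionRing.injective A (FractionRing A)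
    rw [map_sum, map_zero]
    have h1 : ∀ i ∈ Finset.range (k + 1), algebraMap A (FractionRing A)
        (algebraMap K[X] A (p.coeff i) * F ^ i * G ^ (k - i)) =
        (algebraMap K[X] (FractionRing A) (p.coeff i) * J ^ i) *
          (algebraMap A (FractionRing A) G) ^ k := by
      intro i hi
      rw [Finset.mem_range] at hi
      rw [map_mul, map_mul, map_pow, map_pow, hFG, mul_pow,
        ← IsScalarTower.algebraMap_apply K[X] A (FractionRing A)]
      have h2 : (algebraMap A (FractionRing A) G) ^ k =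
          (algebraMap A (FractionRing A) G) ^ i * (algebraMap A (FractionRing A) G) ^ (k - i) := by
        rw [← pow_add]; congr 1; omega
      rw [h2]
      ring
    rw [Finset.sum_congr rfl h1, ← Finset.sum_mul]
    have h3 : ∑ i ∈ Finset.range (k + 1), algebraMap K[X] (FractionRing A) (p.coeff i) * J ^ i =
        0 := by
      rw [aeval_eq_sum_range] at hp
      rw [← hp]
      refine Finset.sum_congr rfl fun i _ => ?_
      rw [Algebra.smul_def]
    rw [h3, zero_mul]
  have h4 := congrArg φ hrel
  rw [map_sum, map_zero] at h4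
  have h5 : (∑ i ∈ Finset.range (k + 1), aeval (φ (algebraMap K[X] A X)) (p.coeff i) *
      (φ F / φ G) ^ i) * φ G ^ k = 0 := by
    rw [← h4, Finset.sum_mul]
    refine Finset.sum_congr rfl fun i hi => ?_
    rw [Finset.mem_range] at hi
    rw [map_mul, map_mul, map_pow, map_pow, hmapP (p.coeff i), div_pow]
    have h6 : φ G ^ k = φ G ^ i * φ G ^ (k - i) := by rw [← pow_add]; congr 1; omega
    rw [h6]
    have h7 : φ G ^ i ≠ 0 := pow_ne_zero _ hG
    field_simp
  exact (mul_eq_zero.1 h5).resolve_right (pow_ne_zero _ hG)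

/-- the height of the value of an integral function -/
theorem ht_int (a : A) : ∃ (m : ℕ) (C : ℝ), 0 ≤ C ∧
    ∀ (M : Type) [Field M] [NumberField M] [Algebra K M] (φ : A →ₐ[K] M),
      logHeight₁ (φ a) ≤ m * logHeight₁ (φ (algebraMap K[X] A X)) + finrank ℚ M * C := by
  classical
  obtain ⟨p, hpm, hp⟩ := Algebra.IsIntegral.isIntegral (R := K[X]) a
  set k := p.natDegree with hk
  set m := (Finset.range (k + 1)).sup fun i => (p.coeff i).natDegree with hm
  have hdeg : ∀ i, (p.coeff i).natDegree ≤ m := by
    intro i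
    by_cases hi : i ≤ k
    · exact Finset.le_sup (f := fun i => (p.coeff i).natDegree) (Finset.mem_range.2 (by omega))
    · rw [coeff_eq_zero_of_natDegree_lt (by omega), natDegree_zero]
      exact Nat.zero_le _
  obtain ⟨C, hC, h⟩ := ht_rel k m (fun i => p.coeff i) hdeg
  refine ⟨m, C, hC, ?_⟩
  intro M _ _ _ φ
  refine h M (φ (algebraMap K[X] A X)) (φ a) ?_ ?_
  · have h1 : p.coeff k = 1 := hpm
    rw [h1, map_one]
    exact one_ne_zero
  · rw [eval₂_eq_sum_range] at hp
    have h4 := congrArg φ hp
    rw [map_sum, map_zero] at h4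
    rw [← h4]
    refine Finset.sum_congr rfl fun i _ => ?_
    rw [map_mul, map_pow, Pool.Agent.N776.CV.map_poly φ (p.coeff i)]

end Pool.Agent.J6H60.DR
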