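import Mathlib
import Pool.Agent.J6H60.DR.CurveW3

/-!
# Closed points in linear systems on curves: the poles of the values
-/

set_option autoImplicit false
set_option linter.unusedSectionVars false

namespace Pool.Agent.J6H60.DR

open NumberField IsDedekindDomain Module Polynomial Pool.Agent.N753.DR Height
open Pool.Agent.N751.LS
open scoped LinearAlgebra.Projectivization

variable {K A : Type} [Field K] [NumberField K] [CommRing A] [IsDomain A]
  [Algebra K A] [Algebra K[X] A] [IsScalarTower K K[X] A] [Module.Finite K[X] A]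
  [FaithfulSMul K[X] A]

omit [NumberField K] [IsDomain A] in
/-- two representations -/
theorem rep_mul {J : FractionRing A} {F G F' G' : A} (h : IsRep J F G) (h' : IsRep J F' G') :
    F * G' = F' * G := by
  apply IsFractionRing.injective A (FractionRing A)
  rw [map_mul, map_mul, h, h']
  ring

theorem lineV (hdom : IsDomain (TensorProduct K (AlgebraicClosure K) A)) {m : ℕ}
    (f : Fin m → A) (hf : LinearIndependent K f) (ρ : ℕ) {ε : ℝ} (hε : 0 < ε) :
    ∃ E : Set (ℙ K (Fin m → K)),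
      (∀ U : ℝ, 0 ≤ U → {P | P ∈ E ∧ Height.logHeight P.rep ≤ U}.Finite ∧
        ({P | P ∈ E ∧ Height.logHeight P.rep ≤ U}.ncard : ℝ) ≤
          Real.exp ((((m - ρ : ℕ) : ℝ) + ε) * U - √U)) ∧
      ∀ (J : FractionRing A) (q : ℕ) (x : Fin q → Pnt K A) (F G : Fin q → A),
        (∀ j, IsRep J (F j) (G j)) → (∀ j, (x j).ψ (G j) = 0) → (∀ j, (x j).ψ (F j) ≠ 0) →
        ρ ≤ cnd x f → ∃ σ : ℝ, 0 ≤ σ ∧ ∀ d : ℕ, ∃ U₀ : ℝ,
          ∀ (M : Type) [Field M] [NumberField M] [Algebra K M] (φ : A →ₐ[K] M)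
            (P : ℙ K (Fin m → K)), finrank ℚ M ≤ d → P ∉ E → Function.Surjective φ →
            RingHom.ker φ = Ideal.span {mem f P.rep} → U₀ ≤ Height.logHeight P.rep →
            ∀ F' G' : A, IsRep J F' G' → φ G' ≠ 0 →
              ∃ W : Finset (HeightOneSpectrum (𝓞 M)),
                (∀ w ∈ W, 1 < w.valuation M (φ F' / φ G')) ∧
                logHeight₁ (φ F' / φ G') ≤ σ * ∑ w ∈ W, lN w := by
  classical
  obtain ⟨E, hE1, hE2⟩ := oneV hdom f hf ρ hε
  refine ⟨E, hE1, ?_⟩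
  intro J q x F G hrep hG0 hF0 hρ
  have hnoeth : IsNoetherianRing A := IsNoetherianRing.of_finite K[X] A
  have hgen : ∀ j, ∃ (u : ℕ) (g : Fin u → A), Ideal.span (Set.range g) = RingHom.ker (x j).ψ :=
    fun j => Submodule.fg_iff_exists_fin_generating_family.1
      (IsNoetherian.noetherian (RingHom.ker (x j).ψ : Ideal A))
  choose u g hg using hgen
  have hmax : ∀ j, (Ideal.span (Set.range (g j))).IsMaximal := fun j => by
    rw [hg j]
    exact RingHom.ker_isMaximal_of_surjective _ (x j).surj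
  -- the primes
  choose dd hdd hpole using fun j => pole_val (K := K) (g j) (hmax j) (F := F j) (G := G j)
    (by rw [hg j]; exact hF0 j) (by rw [hg j]; exact hG0 j)
  obtain ⟨U₀, hU₀, hone⟩ := hE2 q x u g (Finset.univ.image dd) (fun j => (hg j).symm) hρ
  -- heights
  obtain ⟨mJ, CJ, R, hCJ, hR, hJ⟩ := ht_fun (K := K) J
  obtain ⟨CR, hCR, hroot⟩ := ht_poly_root (K := K) R hR
  obtain ⟨CH, hH⟩ := Pool.Agent.N265.CV.t K A m f hf
  choose mg Cg hCg hgg using fun (jl : Σ j, Fin (u j)) => ht_int (K := K) (g jl.1 jl.2)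
  set mm : ℕ := Finset.univ.sup mg with hmm
  have hmg : ∀ jl, mg jl ≤ mm := fun jl => Finset.le_sup (Finset.mem_univ jl)
  set CC : ℝ := ∑ jl, Cg jl with hCC
  have hCC0 : 0 ≤ CC := Finset.sum_nonneg fun jl _ => hCg jl
  have hCgC : ∀ jl, Cg jl ≤ CC := fun jl =>
    Finset.single_le_sum (f := Cg) (fun i _ => hCg i) (Finset.mem_univ jl)
  set s : ℕ := ∑ j, finrank K (x j).L with hs
  set δ : ℝ := ε / (8 * (1 + (s : ℝ))) with hδ
  have hδ0 : 0 < δ := by positivity
  set NA : ℕ := finrank K[X] A with hNA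
  refine ⟨(mJ * NA + 1) / δ, by positivity, fun d => ?_⟩
  refine ⟨max (U₀ + 1) (max ((mm * (d * CR) + d * CC + 1) / δ) (mJ * CH + d * CJ)), ?_⟩
  intro M _ _ _ φ P hd hPE hφ hker hU F' G' hrep' hG'
  have hd' : (finrank ℚ M : ℝ) ≤ d := by exact_mod_cast hd
  set h := Height.logHeight P.rep with hh
  have hU1 : U₀ < h := by
    have := (le_max_left _ _).trans hU
    linarith
  have hU2 : mm * (d * CR) + d * CC + 1 ≤ δ * h := by
    have := (le_max_left _ _).trans ((le_max_right _ _).trans hU)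
    rw [div_le_iff₀ hδ0] at this
    linarith
  have hU3 : mJ * CH + d * CJ ≤ h := (le_max_right _ _).trans ((le_max_right _ _).trans hU)
  have hne : ∀ j, RingHom.ker φ ≠ RingHom.ker (x j).ψ := by
    intro j hj
    have h1 := rep_mul hrep' (hrep j)
    have h2 : φ (G j) = 0 := by
      have : G j ∈ RingHom.ker φ := by rw [hj]; exact hG0 j
      exact this
    have h3 : φ (F j) ≠ 0 := by
      intro h3
      have : F j ∈ RingHom.ker φ := h3
      rw [hj] at this
      exact hF0 j this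
    have h4 := congrArg φ h1
    rw [map_mul, map_mul, h2, mul_zero] at h4
    exact mul_ne_zero h3 hG' h4.symm
  obtain ⟨j, W, hW, hWs⟩ := hone M φ P hPE hφ hker hU1 hne
  rw [← hh] at hWs
  -- the height of `φ X`
  obtain ⟨⟨l, hl⟩, -⟩ := near_finite (g j) (hmax j) ∅ φ (fun h => hne j (h.trans (hg j)))
  have hsum0 : 0 ≤ ∑ w ∈ W, lN w := Finset.sum_nonneg fun w _ =>
    Pool.Agent.N415.DRVK.lN_nonneg w
  have h1 : ∑ w ∈ W, lN w ≤ logHeight₁ (φ (g j l)) :=
    Pool.Agent.N415.DRVK.wt_le hl W fun w hw => (hW w hw).2.2 l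
  set t := φ (algebraMap K[X] A X) with ht
  have hht : 0 ≤ logHeight₁ t := zero_le_logHeight₁ t
  have h2 : logHeight₁ (φ (g j l)) ≤ mm * logHeight₁ t + d * CC := by
    refine (hgg ⟨j, l⟩ M φ).trans ?_
    have e1 : (mg ⟨j, l⟩ : ℝ) ≤ mm := by exact_mod_cast hmg ⟨j, l⟩
    exact add_le_add (mul_le_mul_of_nonneg_right e1 hht)
      (mul_le_mul hd' (hCgC ⟨j, l⟩) (hCg _) (Nat.cast_nonneg _))
  have hR0 : aeval t R ≠ 0 := by
    intro h0
    have h3 := hroot M t h0
    have h4 : logHeight₁ t ≤ d * CR := h3.trans (mul_le_mul_of_nonneg_right hd' hCR)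
    have h5 : (mm : ℝ) * logHeight₁ t ≤ mm * (d * CR) :=
      mul_le_mul_of_nonneg_left h4 (Nat.cast_nonneg _)
    linarith
  refine ⟨W, fun w hw => ?_, ?_⟩
  · obtain ⟨hw1, hw2, hw3⟩ := hW w hw
    obtain ⟨h3, h4⟩ := hpole j M φ w (hw1 (dd j) (Finset.mem_image_of_mem _ (Finset.mem_univ j))
      (hdd j)) hw2 hw3
    have h5 := congrArg φ (rep_mul hrep' (hrep j))
    rw [map_mul, map_mul] at h5
    have hF1 : φ (F j) ≠ 0 := by
      intro h6
      rw [h6, map_zero] at h4
      exact absurd h4 zero_ne_one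
    have hG1 : φ (G j) ≠ 0 := by
      intro h6
      rw [h6, mul_zero] at h5
      exact mul_ne_zero hF1 hG' h5.symm
    have h6 : φ F' / φ G' = φ (F j) / φ (G j) := by
      rw [div_eq_div_iff hG' hG1]
      exact h5
    rw [h6, map_div₀, h4]
    exact (one_lt_div₀ (zero_lt_iff.2 ((Valuation.ne_zero_iff _).2 hG1))).2 h3
  · have h3 := hJ M φ F' G' hrep' hG' hR0
    have h4 := hH M φ P.rep hφ hker P.rep_nonzero
    rw [← hh, ← ht] at h4
    have h5 : (mJ : ℝ) * logHeight₁ t ≤ mJ * (NA * h + CH) :=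
      mul_le_mul_of_nonneg_left h4 (Nat.cast_nonneg _)
    have h6 : (finrank ℚ M : ℝ) * CJ ≤ d * CJ := mul_le_mul_of_nonneg_right hd' hCJ
    have h7 : logHeight₁ (φ F' / φ G') ≤ (mJ * NA + 1) * h := by
      calc logHeight₁ (φ F' / φ G') ≤ mJ * logHeight₁ t + finrank ℚ M * CJ := h3
        _ ≤ mJ * (NA * h + CH) + d * CJ := by linarith
        _ = (mJ * NA) * h + (mJ * CH + d * CJ) := by ring
        _ ≤ (mJ * NA) * h + h := by linarith
        _ = _ := by ring
    refine h7.trans ?_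
    rw [div_mul_eq_mul_div, le_div_iff₀ hδ0, mul_assoc, mul_comm h δ]
    exact mul_le_mul_of_nonneg_left hWs (by positivity)

end Pool.Agent.J6H60.DR
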