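import Mathlib
import Pool.Agent.J6H60.DR.CoreW3
import Pool.Agent.N572.DR.Link
import Pool.Agent.N707.DR.VkG

/-!
# Points of degree `r` of the line: the forms which belong to the closed points of the line
-/

set_option autoImplicit false
set_option linter.unusedSectionVars false

namespace Pool.Agent.J6H60.DR

open NumberField IsDedekindDomain Module Polynomial Pool.Agent.N753.DR Height

/-- a linear form with values in a number field -/
structure Pl (K : Type) [Field K] (m : ℕ) where
  /-- the field -/
  L : Type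
  [fL : Field L]
  [nL : NumberField L]
  [aL : Algebra K L]
  /-- the coefficients -/
  γ : Fin m → L

attribute [instance] Pl.fL Pl.nL Pl.aL

variable {K : Type} [Field K] [NumberField K]

/-- closed points of the line: infinity, and the monic irreducible polynomials -/
abbrev Cl (K : Type) [Field K] : Type := Option {F : K[X] // F.Monic ∧ Irreducible F}

/-- the degree -/
def dg : Cl K → ℕ
  | none => 1
  | some F => F.1.natDegree

/-- `x` meets the closed point at the prime `w` -/
def Mt {M : Type} [Field M] [NumberField M] [Algebra K M] (x : M)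
    (w : HeightOneSpectrum (𝓞 M)) : Cl K → Prop
  | none => 1 < w.valuation M x
  | some F => w.valuation M x ≤ 1 ∧ w.valuation M (aeval x F.1) < 1

/-- `x` is not the closed point -/
def Nz {M : Type} [Field M] [Algebra K M] (x : M) : Cl K → Prop
  | none => True
  | some F => aeval x F.1 ≠ 0

/-- the polynomial vanishes at the closed point -/
def Van {r : ℕ} (c : Fin (r + 1) → K) : Cl K → Prop
  | none => c (Fin.last r) = 0
  | some F => F.1 ∣ ∑ i : Fin (r + 1), C (c i) * X ^ (i : ℕ)

theorem val_sum {L : Type} [Field L] [Algebra K L] {r : ℕ} (α : L) (c : Fin (r + 1) → K) :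
    ∑ i : Fin (r + 1), algebraMap K L (c i) * α ^ (i : ℕ) =
      aeval α (∑ i : Fin (r + 1), C (c i) * X ^ (i : ℕ)) := by
  rw [map_sum]
  refine Finset.sum_congr rfl fun i _ => ?_
  rw [map_mul, map_pow, aeval_X, aeval_C]

theorem sum_eq_mul {p : K[X]} {r : ℕ} (hr : p.natDegree = r) (l : K) (c : Fin (r + 1) → 𝓞 K)
    (h : ∀ i, (c i : K) = l * p.coeff i) :
    ∑ i : Fin (r + 1), C (c i : K) * X ^ (i : ℕ) = C l * p := by
  have h2 : p = ∑ i : Fin (r + 1), C (p.coeff i) * X ^ (i : ℕ) := by
    conv_lhs => rw [p.as_sum_range_C_mul_X_pow, hr]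
    exact Finset.sum_range _
  conv_rhs => rw [h2]
  rw [Finset.mul_sum]
  refine Finset.sum_congr rfl fun i _ => ?_
  rw [h i, ← mul_assoc, ← C_mul]

/-- the form at a finite point -/
theorem exists_plF (r : ℕ) (hr : 1 ≤ r) (F : {F : K[X] // F.Monic ∧ Irreducible F}) :
    ∃ P : Pl K (r + 1), finrank K P.L = F.1.natDegree ∧
      (∀ c : Fin (r + 1) → K, ∑ i, algebraMap K P.L (c i) * P.γ i = 0 → Van c (some F : Cl K)) ∧
      ∃ Bad : Finset (HeightOneSpectrum (𝓞 K)), ∀ (M : Type) [Field M] [NumberField M]
        [Algebra K M] (x : M) (c : Fin (r + 1) → 𝓞 K) (l : K), finrank K M = r →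
        (minpoly K x).natDegree = r → l ≠ 0 → (∀ i, (c i : K) = l * (minpoly K x).coeff i) →
        (Nz x (some F : Cl K) → ∑ i, algebraMap K P.L (c i : K) * P.γ i ≠ 0) ∧
        ∀ v ∉ Bad, (∃ i, c i ∉ v.asIdeal) →
        ∀ w : HeightOneSpectrum (𝓞 P.L), w.asIdeal.LiesOver v.asIdeal →
          w.valuation P.L (∑ i, algebraMap K P.L (c i : K) * P.γ i) < 1 →
        ∃ u : HeightOneSpectrum (𝓞 M), u.asIdeal.LiesOver v.asIdeal ∧ Mt x u (some F : Cl K) := by
  classical
  obtain ⟨F, hFm, hFi⟩ := F
  obtain ⟨L, _, _, _, θ, a, htop, ha, hfr, hmp⟩ :=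
    Pool.Agent.N262.DR.exists_field F hFm hFi
  set α : L := (θ : L) / a with hα
  obtain ⟨BadL, hL⟩ := Pool.Agent.N572.DR.Link.t K L θ a r ha hr
  refine ⟨{ L := L, γ := fun i => α ^ (i : ℕ) }, hfr, ?_, BadL ∪
    (Pool.Agent.N262.DR.badS_finite (K := K) {a}).toFinset, ?_⟩
  · intro c hc
    have h1 := val_sum α c
    show F ∣ _
    rw [← hmp]
    refine minpoly.dvd K α ?_
    rw [← h1]
    exact hc
  · intro M _ _ _ x c l hM hx hl hcl
    have hfd : FiniteDimensional K M := Module.Finite.of_restrictScalars_finite ℚ K M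
    have hxint : IsIntegral K x := IsIntegral.of_finite K x
    have hev : ∑ i : Fin (r + 1), algebraMap K L (c i : K) * α ^ (i : ℕ) =
        algebraMap K L l * aeval α (minpoly K x) := by
      rw [val_sum, sum_eq_mul hx l c hcl, map_mul, aeval_C]
    refine ⟨?_, ?_⟩
    · intro hnz
      show ∑ i : Fin (r + 1), algebraMap K L (c i : K) * α ^ (i : ℕ) ≠ 0
      rw [hev]
      refine mul_ne_zero (by rw [Ne, FaithfulSMul.algebraMap_eq_zero_iff]; exact hl) ?_
      intro h0
      have h1 : F ∣ minpoly K x := by rw [← hmp]; exact minpoly.dvd K α h0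
      have h2 : F = minpoly K x := by
        have h3 := (minpoly.irreducible hxint).dvd_symm hFi
        exact eq_of_monic_of_associated hFm (minpoly.monic hxint)
          (associated_of_dvd_dvd h1 (hFi.dvd_symm (minpoly.irreducible hxint) h1))
      apply hnz
      show aeval x F = 0
      rw [h2]
      exact minpoly.aeval K x
    · intro v hv hprim w hw hval
      have hvL : v ∉ BadL := fun h => hv (Finset.mem_union_left _ h)
      have hva : (a : 𝓞 K) ∉ v.asIdeal := by
        intro h
        apply hv
        refine Finset.mem_union_right _ ?_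
        rw [Set.Finite.mem_toFinset]
        exact ⟨a, Finset.mem_singleton_self _, ha, h⟩
      have haL : (a : L) ≠ 0 := by exact_mod_cast ha
      have hmem : ev a θ c ∈ w.asIdeal := by
        rw [← w.valuation_lt_one_iff_mem (K := L)]
        have e1 : ((ev a θ c : 𝓞 L) : L) =
            (a : L) ^ r * ∑ i : Fin (r + 1), algebraMap K L (c i : K) * α ^ (i : ℕ) := by
          change algebraMap (𝓞 L) L (∑ i : Fin (r + 1),
            algebraMap (𝓞 K) (𝓞 L) (c i) * ((a : 𝓞 L) ^ (r - (i : ℕ)) * θ ^ (i : ℕ))) = _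
          rw [map_sum, Finset.mul_sum]
          refine Finset.sum_congr rfl fun i _ => ?_
          rw [map_mul, map_mul, map_pow, map_pow, map_natCast]
          have e2 : algebraMap (𝓞 L) L (algebraMap (𝓞 K) (𝓞 L) (c i)) =
            algebraMap K L (c i : K) := rfl
          have e3 : (a : L) ^ r = (a : L) ^ (r - (i : ℕ)) * (a : L) ^ (i : ℕ) := by
            rw [← pow_add]; congr 1; have := i.2; omega
          rw [e2, hα, e3, div_pow]
          have h4 : (a : L) ^ (i : ℕ) ≠ 0 := pow_ne_zero _ haL
          field_simp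
        change w.valuation L ((ev a θ c : 𝓞 L) : L) < 1
        rw [e1, map_mul]
        have h3 : w.valuation L ((a : L) ^ r) ≤ 1 := by
          rw [map_pow]
          refine pow_le_one' ?_ r
          have h7 : w.valuation L ((a : 𝓞 L) : L) ≤ 1 := w.valuation_le_one _
          have h10 : ((a : 𝓞 L) : L) = (a : L) := map_natCast _ _
          rwa [h10] at h7
        exact lt_of_le_of_lt (mul_le_of_le_one_left' h3) hval
      obtain ⟨u, hu, hux, huF⟩ := hL M x c l hM hx hl hcl v hvL hprim w hw hmem
      rw [hmp] at huF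
      exact ⟨u, hu, hux, huF⟩

/-- the form at infinity -/
theorem exists_plI (r : ℕ) (hr : 1 ≤ r) :
    ∃ P : Pl K (r + 1), finrank K P.L = 1 ∧
      (∀ c : Fin (r + 1) → K, ∑ i, algebraMap K P.L (c i) * P.γ i = 0 → Van c (none : Cl K)) ∧
      ∃ Bad : Finset (HeightOneSpectrum (𝓞 K)), ∀ (M : Type) [Field M] [NumberField M]
        [Algebra K M] (x : M) (c : Fin (r + 1) → 𝓞 K) (l : K), finrank K M = r →
        (minpoly K x).natDegree = r → l ≠ 0 → (∀ i, (c i : K) = l * (minpoly K x).coeff i) →
        (Nz x (none : Cl K) → ∑ i, algebraMap K P.L (c i : K) * P.γ i ≠ 0) ∧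
        ∀ v ∉ Bad, (∃ i, c i ∉ v.asIdeal) →
        ∀ w : HeightOneSpectrum (𝓞 P.L), w.asIdeal.LiesOver v.asIdeal →
          w.valuation P.L (∑ i, algebraMap K P.L (c i : K) * P.γ i) < 1 →
        ∃ u : HeightOneSpectrum (𝓞 M), u.asIdeal.LiesOver v.asIdeal ∧ Mt x u (none : Cl K) := by
  classical
  obtain ⟨BadL, hL⟩ := Pool.Agent.N572.DR.Link.t K K 0 1 r one_ne_zero hr
  have hsum : ∀ c : Fin (r + 1) → K,
      ∑ i, algebraMap K K (c i) * (if i = Fin.last r then (1 : K) else 0) = c (Fin.last r) := by
    intro c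
    rw [Finset.sum_eq_single (Fin.last r)]
    · rw [if_pos rfl, mul_one]; rfl
    · intro i _ hi
      rw [if_neg hi, mul_zero]
    · intro h
      exact absurd (Finset.mem_univ _) h
  refine ⟨{ L := K, γ := fun i => if i = Fin.last r then 1 else 0 }, finrank_self K, ?_,
    BadL, ?_⟩
  · intro c hc
    have h1 := hsum c
    exact h1.symm.trans hc
  · intro M _ _ _ x c l hM hx hl hcl
    have hfd : FiniteDimensional K M := Module.Finite.of_restrictScalars_finite ℚ K M
    have hxint : IsIntegral K x := IsIntegral.of_finite K x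
    have hcr : (c (Fin.last r) : K) = l := by
      rw [hcl, Fin.val_last]
      have h1 : (minpoly K x).coeff r = 1 := by
        have h2 := minpoly.monic hxint
        rw [← hx]
        exact h2
      rw [h1, mul_one]
    have hs := hsum fun i => (c i : K)
    refine ⟨fun _ => ?_, ?_⟩
    · intro h
      apply hl
      rw [← hcr, ← hs]
      exact h
    · intro v hv hprim w hw hval
      have hval' : w.valuation K (c (Fin.last r) : K) < 1 := by
        rw [← hs]
        exact hval
      have hmemw : c (Fin.last r) ∈ w.asIdeal := (w.valuation_lt_one_iff_mem (K := K) _).1 hval'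
      by_cases hx0 : x = 0
      · -- then `r = 1` and `c = (0, l)`
        exfalso
        subst hx0
        have h1 : r = 1 := by rw [← hx, minpoly.zero, natDegree_X]
        subst h1
        obtain ⟨i, hi⟩ := hprim
        have hwv : w.asIdeal = v.asIdeal := by
          have := hw.over
          rw [this]
          ext y
          rw [Ideal.under_def, Ideal.mem_comap]
          exact Iff.rfl
        fin_cases i
        · apply hi
          have h2 : (c 0 : K) = 0 := by
            have h3 := hcl 0
            rw [minpoly.zero] at h3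
            simpa using h3
          have h3 : c 0 = 0 := RingOfIntegers.coe_injective (by rw [map_zero]; exact h2)
          show c 0 ∈ v.asIdeal
          rw [h3]; exact Ideal.zero_mem _
        · apply hi
          rw [← hwv]
          exact hmemw
      · have hc0 : (minpoly K x).coeff 0 ≠ 0 := Pool.Agent.N707.DRVkG.coeff0_ne hxint hx0
        have hinv := Pool.Agent.N707.DRVkG.minpoly_inv hxint hx0
        have hdeg := Pool.Agent.N707.DRVkG.deg_inv hxint hx0
        have hcoef : ∀ i : Fin (r + 1), (c (Fin.rev i) : K) =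
            (l * (minpoly K x).coeff 0) * (minpoly K x⁻¹).coeff i := by
          intro i
          rw [hinv]
          unfold Pool.Agent.N707.DRVkG.rv
          rw [coeff_C_mul, coeff_reverse, hx, hcl, Fin.val_rev]
          have hi := i.2
          rw [revAt_le (by omega)]
          have e1 : r + 1 - ((i : ℕ) + 1) = r - i := by omega
          rw [e1]
          field_simp
        have hmem : ev 1 (0 : 𝓞 K) (fun i => c (Fin.rev i)) ∈ w.asIdeal := by
          have e1 : ev 1 (0 : 𝓞 K) (fun i => c (Fin.rev i)) = c (Fin.last r) := by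
            change ∑ i : Fin (r + 1), algebraMap (𝓞 K) (𝓞 K) (c (Fin.rev i)) *
              (((1 : ℕ) : 𝓞 K) ^ (r - (i : ℕ)) * (0 : 𝓞 K) ^ (i : ℕ)) = _
            rw [Finset.sum_eq_single 0]
            · simp [Fin.rev_zero]
            · intro i _ hi
              have h2 : (i : ℕ) ≠ 0 := fun h => hi (Fin.ext h)
              rw [zero_pow h2, mul_zero, mul_zero]
            · intro h
              exact absurd (Finset.mem_univ _) h
          rw [e1]
          exact hmemw
        obtain ⟨u, hu, hux, huF⟩ := hL M x⁻¹ (fun i => c (Fin.rev i)) (l * (minpoly K x).coeff 0)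
          hM (hdeg.trans hx) (mul_ne_zero hl hc0) hcoef v hv
          (by
            obtain ⟨i, hi⟩ := hprim
            exact ⟨Fin.rev i, by rw [Fin.rev_rev]; exact hi⟩) w hw hmem
        refine ⟨u, hu, ?_⟩
        have e2 : minpoly K (((0 : 𝓞 K) : K) / ((1 : ℕ) : K)) = X := by
          have e0 : ((0 : 𝓞 K) : K) = 0 := map_zero (algebraMap (𝓞 K) K)
          rw [e0, zero_div, minpoly.zero]
        rw [e2, aeval_X, map_inv₀] at huF
        show 1 < u.valuation M x
        have h0 : 0 < u.valuation M x := zero_lt_iff.2 ((Valuation.ne_zero_iff _).2 hx0)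
        exact (inv_lt_one₀ h0).1 huF

/-- the form at a closed point -/
theorem exists_pl (r : ℕ) (hr : 1 ≤ r) (p : Cl K) :
    ∃ P : Pl K (r + 1), finrank K P.L = dg p ∧
      (∀ c : Fin (r + 1) → K, ∑ i, algebraMap K P.L (c i) * P.γ i = 0 → Van c p) ∧
      ∃ Bad : Finset (HeightOneSpectrum (𝓞 K)), ∀ (M : Type) [Field M] [NumberField M]
        [Algebra K M] (x : M) (c : Fin (r + 1) → 𝓞 K) (l : K), finrank K M = r →
        (minpoly K x).natDegree = r → l ≠ 0 → (∀ i, (c i : K) = l * (minpoly K x).coeff i) →
        (Nz x p → ∑ i, algebraMap K P.L (c i : K) * P.γ i ≠ 0) ∧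
        ∀ v ∉ Bad, (∃ i, c i ∉ v.asIdeal) →
        ∀ w : HeightOneSpectrum (𝓞 P.L), w.asIdeal.LiesOver v.asIdeal →
          w.valuation P.L (∑ i, algebraMap K P.L (c i : K) * P.γ i) < 1 →
        ∃ u : HeightOneSpectrum (𝓞 M), u.asIdeal.LiesOver v.asIdeal ∧ Mt x u p := by
  cases p with
  | none => exact exists_plI r hr
  | some F => exact exists_plF r hr F

end Pool.Agent.J6H60.DR
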