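import Mathlib
import Pool.Agent.J6H60.DR.LineW1
import Pool.Agent.N262.DR.HtInv
import Pool.Agent.N459.DR.Red

/-!
# Points of degree `r` of the line: few points have small truncated counting functions
-/

set_option autoImplicit false
set_option linter.unusedSectionVars false

namespace Pool.Agent.J6H60.DR

open NumberField IsDedekindDomain Module Polynomial Pool.Agent.N753.DR Height
open Pool.Agent.N262.DR (lN_nonneg sum_under_le over_eq badS_finite pow_bound Bx_finite gp gp_eq
  ht_inv)

section rank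

variable {K : Type} [Field K]

/-- a lower bound for the rank -/
theorem rk_ge {m q : ℕ} (L : Fin q → Type) [∀ j, Field (L j)]
    [∀ j, Algebra K (L j)] (γ : ∀ j, Fin m → L j) (I : Finset (Fin m))
    (h : ∀ c : Fin m → K, (∀ i ∉ I, c i = 0) →
      (∀ j, ∑ i, algebraMap K (L j) (c i) * γ j i = 0) → c = 0) : I.card ≤ rk K L γ := by
  classical
  set v : Fin m → ∀ j, L j := fun i => (fun j => γ j i : ∀ j, L j) with hv
  have hli : LinearIndependent K (fun i : I => v i) := by
    rw [Fintype.linearIndependent_iff]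
    intro g hg
    let c : Fin m → K := fun i => if hi : i ∈ I then g ⟨i, hi⟩ else 0
    have hc0 : c = 0 := by
      refine h c (fun i hi => dif_neg hi) fun j => ?_
      have h1 : ∑ i, algebraMap K (L j) (c i) * γ j i = ∑ i ∈ I, algebraMap K (L j) (c i) * γ j i := by
        symm
        refine Finset.sum_subset (Finset.subset_univ _) fun i _ hi => ?_
        have : c i = 0 := dif_neg hi
        rw [this, map_zero, zero_mul]
      rw [h1, ← Finset.sum_coe_sort]
      have h2 := congrFun hg j
      rw [Finset.sum_apply] at h2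
      have h3 : (0 : ∀ j, L j) j = 0 := rfl
      rw [h3] at h2
      rw [← h2]
      refine Finset.sum_congr rfl fun i _ => ?_
      have h4 : c i = g i := dif_pos i.2
      rw [h4, Pi.smul_apply, Algebra.smul_def]
    intro i
    have h4 : c i = g i := dif_pos i.2
    rw [← h4, hc0]
    rfl
  have h1 : finrank K (Submodule.span K (Set.range fun i : I => v i)) = I.card := by
    rw [finrank_span_eq_card hli, Fintype.card_coe]
  unfold rk
  rw [← h1]
  have hfin : Module.Finite K (Submodule.span K (Set.range v)) :=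
    Module.Finite.span_of_finite K (Set.finite_range v)
  refine Submodule.finrank_mono (Submodule.span_mono ?_)
  rintro _ ⟨i, rfl⟩
  exact ⟨i, rfl⟩

/-- the polynomial of a closed point -/
noncomputable def pol : Cl K → K[X]
  | none => 1
  | some F => F.1

theorem pol_monic (p : Cl K) : (pol p).Monic := by
  cases p with
  | none => exact monic_one
  | some F => exact F.2.1

theorem pol_coprime {p p' : Cl K} (h : p ≠ p') : IsCoprime (pol p) (pol p') := by
  cases p with
  | none => exact isCoprime_one_left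
  | some F =>
    cases p' with
    | none => exact isCoprime_one_right
    | some F' =>
      show IsCoprime F.1 F'.1
      refine (F.2.2).coprime_iff_not_dvd.2 ?_
      intro hd
      apply h
      congr 1
      apply Subtype.ext
      exact eq_of_monic_of_associated F.2.1 F'.2.1
        (associated_of_dvd_dvd hd (F.2.2.dvd_symm F'.2.2 hd))

theorem van_pol {r : ℕ} {c : Fin (r + 1) → K} {p : Cl K} (h : Van c p) :
    pol p ∣ ∑ i : Fin (r + 1), C (c i) * X ^ (i : ℕ) := by
  cases p with
  | none => exact one_dvd _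
  | some F => exact h

theorem coeff_sum {r : ℕ} (c : Fin (r + 1) → K) (k : ℕ) :
    (∑ i : Fin (r + 1), C (c i) * X ^ (i : ℕ)).coeff k =
      if h : k < r + 1 then c ⟨k, h⟩ else 0 := by
  rw [finsetSum_coeff]
  simp only [coeff_C_mul, coeff_X_pow]
  split_ifs with h
  · rw [Finset.sum_eq_single ⟨k, h⟩]
    · simp
    · intro i _ hi
      have h1 : k ≠ (i : ℕ) := fun h2 => hi (Fin.ext h2.symm)
      rw [if_neg h1, mul_zero]
    · intro h2
      exact absurd (Finset.mem_univ _) h2
  · refine Finset.sum_eq_zero fun i _ => ?_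
    have h1 : k ≠ (i : ℕ) := by have := i.2; omega
    rw [if_neg h1, mul_zero]

/-- the conditions at different closed points are independent -/
theorem rk_line {r q : ℕ} (L : Fin q → Type) [∀ j, Field (L j)] [∀ j, Algebra K (L j)]
    (γ : ∀ j, Fin (r + 1) → L j) (Pt : Fin q → Cl K) (hPt : Function.Injective Pt)
    (hV : ∀ j, ∀ c : Fin (r + 1) → K, ∑ i, algebraMap K (L j) (c i) * γ j i = 0 → Van c (Pt j)) :
    min (r + 1) (∑ j, dg (Pt j)) ≤ rk K L γ := by
  classical
  set b : ℕ := (Finset.univ.filter fun j => Pt j = none).card with hb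
  have hb1 : b ≤ 1 := by
    rw [hb, Finset.card_le_one]
    intro i hi j hj
    rw [Finset.mem_filter] at hi hj
    exact hPt (hi.2.trans hj.2.symm)
  set D := ∑ j, dg (Pt j) with hD
  set D' := (∏ j, pol (Pt j)).natDegree with hD'
  have hDD : D = D' + b := by
    rw [hD, hD', natDegree_prod_of_monic _ _ (fun j _ => pol_monic _), hb, Finset.card_filter,
      ← Finset.sum_add_distrib]
    refine Finset.sum_congr rfl fun j _ => ?_
    cases hj : Pt j with
    | none =>
      show 1 = (1 : K[X]).natDegree + _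
      rw [natDegree_one, if_pos rfl]
    | some F =>
      show F.1.natDegree = F.1.natDegree + _
      rw [if_neg (by simp), add_zero]
  set ρ := min (r + 1) D with hρ
  set I : Finset (Fin (r + 1)) := Finset.univ.filter fun i =>
    (i : ℕ) < ρ - b ∨ (b = 1 ∧ (i : ℕ) = r ∧ 1 ≤ ρ) with hI
  have hIc : ρ ≤ I.card := by
    have hρr : ρ ≤ r + 1 := min_le_left _ _
    rcases Nat.lt_or_ge b 1 with h0 | h0
    · have hb0 : b = 0 := by omega
      have h1 : (Finset.univ.filter fun i : Fin (r + 1) => (i : ℕ) < ρ) ⊆ I := by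
        intro i hi
        rw [Finset.mem_filter] at hi
        rw [hI, Finset.mem_filter]
        exact ⟨hi.1, Or.inl (by omega)⟩
      refine le_trans ?_ (Finset.card_le_card h1)
      rw [Fin.card_filter_val_lt]
      omega
    · have hb1' : b = 1 := by omega
      rcases Nat.eq_zero_or_pos ρ with h2 | h2
      · omega
      have h1 : insert (Fin.last r) (Finset.univ.filter fun i : Fin (r + 1) => (i : ℕ) < ρ - 1) ⊆
          I := by
        intro i hi
        rw [Finset.mem_insert, Finset.mem_filter] at hi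
        rw [hI, Finset.mem_filter]
        refine ⟨Finset.mem_univ _, ?_⟩
        rcases hi with rfl | hi
        · exact Or.inr ⟨hb1', Fin.val_last r, h2⟩
        · exact Or.inl (by rw [hb1']; exact hi.2)
      refine le_trans ?_ (Finset.card_le_card h1)
      rw [Finset.card_insert_of_notMem, Fin.card_filter_val_lt]
      · omega
      · rw [Finset.mem_filter, Fin.val_last]
        omega
  refine hIc.trans (rk_ge L γ I fun c hc hc0 => ?_)
  have hvan := fun j => hV j c (hc0 j)
  by_contra hne
  set Q : K[X] := ∑ i : Fin (r + 1), C (c i) * X ^ (i : ℕ) with hQ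
  have hQ0 : Q ≠ 0 := by
    intro h0
    apply hne
    funext i
    have h1 := coeff_sum c i
    rw [← hQ, h0, coeff_zero, dif_pos i.2] at h1
    exact h1.symm
  have hdvd : ∏ j, pol (Pt j) ∣ Q :=
    Finset.prod_dvd_of_coprime (fun i _ j _ hij => pol_coprime fun h => hij (hPt h))
      fun j _ => van_pol (hvan j)
  have hdeg : D' ≤ Q.natDegree := natDegree_le_of_dvd hdvd hQ0
  -- the support
  have hsupp : ∀ k, ρ - b ≤ k → Q.coeff k = 0 := by
    intro k hk
    rw [hQ, coeff_sum]
    split_ifs with hk1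
    · by_cases hkI : (⟨k, hk1⟩ : Fin (r + 1)) ∈ I
      · rw [hI, Finset.mem_filter] at hkI
        rcases hkI.2 with h1 | ⟨h1, h2, h3⟩
        · simp only at h1; omega
        · -- the leading coefficient vanishes
          have h4 : ∃ j, Pt j = none := by
            have h5 : (Finset.univ.filter fun j => Pt j = none).Nonempty := by
              rw [← Finset.card_pos, ← hb]; omega
            obtain ⟨j, hj⟩ := h5
            exact ⟨j, (Finset.mem_filter.1 hj).2⟩
          obtain ⟨j, hj⟩ := h4
          have h6 := hvan j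
          rw [hj] at h6
          have h7 : (⟨k, hk1⟩ : Fin (r + 1)) = Fin.last r := Fin.ext h2
          rw [h7]
          exact h6
      · exact hc _ hkI
    · rfl
  have hlt : Q.natDegree < ρ - b := by
    by_contra hcon
    rw [not_lt] at hcon
    exact hQ0 (leadingCoeff_eq_zero.1 (hsupp _ hcon))
  have hρD : ρ ≤ D := min_le_right _ _
  omega

end rank

variable {K : Type} [Field K] [NumberField K]

/-- `p` is the minimal polynomial of a number of degree `r` for which all the truncated counting
functions of the closed points are at most `δ` times the height -/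
def BadL (r : ℕ) {q : ℕ} (S : Finset ℕ) (Pt : Fin q → Cl K) (δ : ℝ) (p : K[X]) : Prop :=
  ∃ (M : Type) (_ : Field M) (_ : NumberField M) (_ : Algebra K M) (x : M),
    finrank K M = r ∧ (minpoly K x).natDegree = r ∧ minpoly K x = p ∧ ∀ j, Nz x (Pt j) ∧
    ∃ W : Finset (HeightOneSpectrum (𝓞 M)),
      (∀ w, (∀ p ∈ S, p ≠ 0 → (p : 𝓞 M) ∉ w.asIdeal) → Mt x w (Pt j) → w ∈ W) ∧
      ∑ w ∈ W, lN w ≤ δ * logHeight₁ x

/-- few points have small truncated counting functions -/
theorem cntL (r : ℕ) (hr : 1 ≤ r) (S : Finset ℕ) {q : ℕ} (Pt : Fin q → Cl K)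
    (hPt : Function.Injective Pt) (δ : ℝ) (hδ : 0 ≤ δ) {ε : ℝ} (hε : 0 < ε) :
    ∃ C : ℝ, 0 < C ∧ ∀ U : ℝ, 0 ≤ U → {p : K[X] | BadL r S Pt δ p ∧ AtH r U p}.Finite ∧
      ({p : K[X] | BadL r S Pt δ p ∧ AtH r U p}.ncard : ℝ) ≤
        C * Real.exp ((((r + 1 - min (r + 1) (∑ j, dg (Pt j)) : ℕ) : ℝ) + ε +
          2 * (∑ j, dg (Pt j) : ℕ) * δ) * U) := by
  classical
  choose P hPd hPV Bad0 hP using fun j => exists_pl (K := K) r hr (Pt j)
  obtain ⟨BadR, C0, hC0, hR⟩ := Pool.Agent.N459.DR.t K r hr
  set BadS := (badS_finite (K := K) S).toFinset with hBadS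
  set Bad := (Finset.univ.biUnion Bad0) ∪ BadR ∪ BadS with hBad
  set n : ℝ := (finrank ℚ K : ℝ) with hn
  have hn0 : 0 < n := by
    rw [hn]; exact_mod_cast (Module.finrank_pos : 0 < finrank ℚ K)
  obtain ⟨C1, hC1, hcore⟩ := coreW (K := K) (m := r + 1) (fun j => (P j).L) (fun j => (P j).γ) Bad
    (ε := n * ε) (by positivity)
  set ρ := rk K (fun j => (P j).L) (fun j => (P j).γ) with hρ
  have hρ1 : min (r + 1) (∑ j, dg (Pt j)) ≤ ρ :=
    rk_line (fun j => (P j).L) (fun j => (P j).γ) Pt hPt hPV
  have hs : (∑ j, (finrank K (P j).L : ℝ)) = ((∑ j, dg (Pt j) : ℕ) : ℝ) := by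
    rw [Nat.cast_sum]
    exact Finset.sum_congr rfl fun j _ => by rw [hPd j]
  set D := ∑ j, dg (Pt j) with hD
  set c0 : ℝ := max C0 1 with hc0
  have hc01 : 1 ≤ c0 := le_max_right _ _
  set e : ℝ := n * ((r + 1 - min (r + 1) D : ℕ) : ℝ) + n * ε with he
  have he0 : 0 ≤ e := by positivity
  refine ⟨C1 * (2 * c0) ^ |e|, by positivity, fun U hU => ?_⟩
  set y : ℝ := Real.exp (U / n) with hy
  have hy1 : 1 ≤ y := Real.one_le_exp (by positivity)
  set B : ℕ := ⌈c0 * y⌉₊ with hB
  have hBl : c0 * y ≤ B := Nat.le_ceil _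
  have hBu : (B : ℝ) ≤ 2 * c0 * y := by
    have := Nat.ceil_lt_add_one (a := c0 * y) (by positivity)
    have : 1 ≤ c0 * y := one_le_mul_of_one_le_of_one_le hc01 hy1
    linarith
  have hyB : y ≤ B := by
    have : 1 * y ≤ c0 * y := mul_le_mul_of_nonneg_right hc01 (by positivity)
    linarith
  have hB1 : 1 ≤ B := by
    have : (1 : ℝ) ≤ B := hy1.trans hyB
    exact_mod_cast this
  have hB1' : (1 : ℝ) ≤ B := by exact_mod_cast hB1
  set E := EW (fun j => (P j).L) (fun j => (P j).γ) Bad B (δ * U) with hE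
  have hEf : E.Finite := (Bx_finite (K := K) (r + 1) B).subset fun c hc => hc.1
  have hsub : {p : K[X] | BadL r S Pt δ p ∧ AtH r U p} ⊆ gp '' E := by
    rintro p ⟨⟨M, _, _, _, x, hM, hx, hxp, hj⟩, ⟨M', _, _, _, x', hM', hx', hxp', hU'⟩⟩
    have hht : Height.logHeight₁ x ≤ U := by
      rw [ht_inv x x' hM hx hM' (hxp.trans hxp'.symm)]
      exact hU'
    obtain ⟨c, l, hl, hcl, hprim, hsz⟩ := hR M x hM hx
    have hxint : IsIntegral K x := by
      have : FiniteDimensional K M := Module.Finite.of_restrictScalars_finite ℚ K M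
      exact IsIntegral.of_finite K x
    refine ⟨c, ⟨?_, ?_⟩, ?_⟩
    · intro j
      have h4 := hsz j
      have h5 : Real.exp (Height.logHeight₁ x / n) ≤ y :=
        Real.exp_le_exp.mpr (div_le_div_of_nonneg_right hht hn0.le)
      have h6 : (sz (c j) : ℝ) ≤ B := by
        refine h4.trans (le_trans ?_ hBl)
        exact mul_le_mul (le_max_left _ _) h5 (Real.exp_pos _).le (by positivity)
      exact_mod_cast h6
    · intro j
      obtain ⟨hnz, W, hW, hWs⟩ := hj j
      obtain ⟨g1, g2⟩ := hP j M x c l hM hx hl hcl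
      refine ⟨g1 hnz, W.image fun u => HeightOneSpectrum.under (𝓞 K) u, ?_, ?_⟩
      · intro v hv w hw hev
        have hvR : v ∉ BadR := fun h => hv (by simp only [hBad, Finset.mem_union]; tauto)
        have hvL : v ∉ Bad0 j := fun h => hv (by
          simp only [hBad, Finset.mem_union]
          exact Or.inl (Or.inl (Finset.mem_biUnion.2 ⟨j, Finset.mem_univ _, h⟩)))
        have hvS : v ∉ BadS := fun h => hv (by simp only [hBad, Finset.mem_union]; tauto)
        obtain ⟨u, hu, huM⟩ := g2 v hvL (hprim v hvR) w hw hev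
        have hunder := over_eq hu
        rw [Finset.mem_image]
        refine ⟨u, hW u ?_ huM, hunder⟩
        intro p hp hp0 hmem
        apply hvS
        rw [hBadS, Set.Finite.mem_toFinset]
        refine ⟨p, hp, hp0, ?_⟩
        rw [← hunder, HeightOneSpectrum.under_asIdeal, Ideal.under_def, Ideal.mem_comap,
          map_natCast]
        exact hmem
      · have h4 : ∑ v ∈ W.image (fun u => HeightOneSpectrum.under (𝓞 K) u), lN v ≤
            ∑ u ∈ W, lN u := sum_under_le W _ fun v hv => Finset.mem_image.mp hv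
        exact h4.trans (hWs.trans (mul_le_mul_of_nonneg_left hht hδ))
    · rw [← hxp]
      exact gp_eq (minpoly.monic hxint) hx hl hcl
  have hfin : (gp '' E).Finite := hEf.image _
  refine ⟨hfin.subset hsub, ?_⟩
  have h4 : ({p : K[X] | BadL r S Pt δ p ∧ AtH r U p}.ncard : ℝ) ≤ (E.ncard : ℝ) := by
    exact_mod_cast (Set.ncard_le_ncard hsub hfin).trans (Set.ncard_image_le hEf)
  refine h4.trans ((hcore B (δ * U) hB1 (by positivity)).trans ?_)
  rw [hs]
  have h5 := pow_bound (c := 2 * c0) (B := B) (y := y) (E := e) (by linarith)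
    (by positivity) hyB hBu
  have h6 : y ^ e = Real.exp ((((r + 1 - min (r + 1) D : ℕ) : ℝ) + ε) * U) := by
    rw [hy, ← Real.exp_mul, he]
    congr 1
    field_simp
  rw [h6] at h5
  have h7 : (B : ℝ) ^ ((finrank ℚ K : ℝ) * (r + 1 - ρ : ℕ) + n * ε) ≤ (B : ℝ) ^ e := by
    refine Real.rpow_le_rpow_of_exponent_le hB1' ?_
    rw [he, ← hn]
    have h8 : ((r + 1 - ρ : ℕ) : ℝ) ≤ ((r + 1 - min (r + 1) D : ℕ) : ℝ) := by
      exact_mod_cast (by omega : r + 1 - ρ ≤ r + 1 - min (r + 1) D)
    have := mul_le_mul_of_nonneg_left h8 hn0.le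
    linarith
  calc C1 * (B : ℝ) ^ ((finrank ℚ K : ℝ) * (r + 1 - ρ : ℕ) + n * ε) *
        Real.exp (2 * (D : ℝ) * (δ * U))
      ≤ C1 * ((2 * c0) ^ |e| * Real.exp ((((r + 1 - min (r + 1) D : ℕ) : ℝ) + ε) * U)) *
        Real.exp (2 * (D : ℝ) * (δ * U)) := by
        refine mul_le_mul_of_nonneg_right (mul_le_mul_of_nonneg_left (h7.trans h5) hC1.le)
          (Real.exp_pos _).le
    _ = C1 * (2 * c0) ^ |e| * (Real.exp ((((r + 1 - min (r + 1) D : ℕ) : ℝ) + ε) * U) *
        Real.exp (2 * (D : ℝ) * (δ * U))) := by ring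
    _ = _ := by
        rw [← Real.exp_add]
        congr 2
        ring

end Pool.Agent.J6H60.DR
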