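import Mathlib
import Pool.Agent.J6H60.DR.LineW2
import Pool.Agent.N572.DR.Diag
import Pool.Agent.N572.DR.KE

/-!
# Points of degree `r` of the line: one exceptional set for all finite sets of closed points
-/

set_option autoImplicit false
set_option linter.unusedSectionVars false

namespace Pool.Agent.J6H60.DR

open NumberField IsDedekindDomain Module Polynomial Pool.Agent.N753.DR Height
open Pool.Agent.N262.DR (ht_inv)

variable {K : Type} [Field K] [NumberField K]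

/-- finitely many primes at which `x` meets a closed point -/
theorem mt_finite {M : Type} [Field M] [NumberField M] [Algebra K M] (x : M) (p : Cl K)
    (h : Nz x p) : {w : HeightOneSpectrum (𝓞 M) | Mt x w p}.Finite := by
  cases p with
  | none =>
    by_cases hx : x = 0
    · refine Set.Finite.subset Set.finite_empty ?_
      intro w hw
      have hw' : 1 < w.valuation M x := hw
      rw [hx, map_zero] at hw'
      exact absurd hw' (by simp)
    · refine (Pool.Agent.N415.DRVK.zeros_finite (inv_ne_zero hx)).subset ?_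
      intro w hw
      have hw' : 1 < w.valuation M x := hw
      show w.valuation M x⁻¹ < 1
      rw [map_inv₀]
      exact inv_lt_one_of_one_lt₀ hw'
  | some F =>
    refine (Pool.Agent.N415.DRVK.zeros_finite (z := aeval x F.1) h).subset ?_
    intro w hw
    exact hw.2

theorem atH_mono {r : ℕ} {U U' : ℝ} {p : K[X]} (h : U ≤ U') (hp : AtH r U p) : AtH r U' p := by
  obtain ⟨M, i1, i2, i3, x, h1, h2, h3, h4⟩ := hp
  exact ⟨M, i1, i2, i3, x, h1, h2, h3, h4.trans h⟩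

/-- one exceptional set -/
theorem oneE (r : ℕ) (hr : 1 ≤ r) (D₀ : ℕ) (hD₀ : D₀ ≤ r + 1) {ε : ℝ} (hε : 0 < ε) :
    ∃ E : Set K[X],
      (∀ U : ℝ, 0 ≤ U → {p | p ∈ E ∧ AtH r U p}.Finite ∧
        ({p | p ∈ E ∧ AtH r U p}.ncard : ℝ) ≤
          Real.exp ((((r + 1 - D₀ : ℕ) : ℝ) + ε) * U - √U)) ∧
      ∀ (q : ℕ) (Pt : Fin q → Cl K) (S : Finset ℕ), Function.Injective Pt →
        D₀ ≤ ∑ j, dg (Pt j) → ∃ U₀ : ℝ, 0 ≤ U₀ ∧
        ∀ (M : Type) [Field M] [NumberField M] [Algebra K M] (x : M), finrank K M = r →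
          (minpoly K x).natDegree = r → minpoly K x ∉ E → U₀ < logHeight₁ x →
          (∀ j, Nz x (Pt j)) → ∃ (j : Fin q) (W : Finset (HeightOneSpectrum (𝓞 M))),
            (∀ w ∈ W, (∀ p ∈ S, p ≠ 0 → (p : 𝓞 M) ∉ w.asIdeal) ∧ Mt x w (Pt j)) ∧
            ε / (8 * (1 + (∑ j, dg (Pt j) : ℕ))) * logHeight₁ x ≤ ∑ w ∈ W, lN w := by
  classical
  have hcK := Pool.Agent.N572.DR.KE.countable_pol K
  let Jt : Type := {s : (Σ q : ℕ, (Fin q → Cl K) × Finset ℕ) //
    Function.Injective s.2.1 ∧ D₀ ≤ ∑ j, dg (s.2.1 j)}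
  have hJ : Countable Jt := inferInstance
  let A : Jt → K[X] → Prop := fun s p =>
    BadL r s.1.2.2 s.1.2.1 (ε / (8 * (1 + (∑ j, dg (s.1.2.1 j) : ℕ)))) p
  obtain ⟨E, hE1, hE2⟩ := Pool.Agent.N572.DR.Diag.t K[X] Jt (fun U p => AtH r U p)
    (fun U U' p h hp => atH_mono h hp) A (((r + 1 - D₀ : ℕ) : ℝ) + ε) (by positivity) (by
      rintro ⟨⟨q, Pt, S⟩, hPt, hD⟩
      simp only at hPt hD
      set D := ∑ j, dg (Pt j) with hDdef
      have hδ : 0 ≤ ε / (8 * (1 + (D : ℝ))) := by positivity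
      obtain ⟨C, hC, h⟩ := cntL r hr S Pt hPt (ε / (8 * (1 + (D : ℝ)))) hδ
        (ε := ε / 4) (by positivity)
      refine ⟨ε / 2, C, by positivity, fun U hU => ?_⟩
      obtain ⟨h1, h2⟩ := h U hU
      refine ⟨h1, h2.trans (mul_le_mul_of_nonneg_left (Real.exp_le_exp.2 ?_) hC.le)⟩
      refine mul_le_mul_of_nonneg_right ?_ hU
      rw [← hDdef]
      have e1 : ((r + 1 - min (r + 1) D : ℕ) : ℝ) ≤ ((r + 1 - D₀ : ℕ) : ℝ) := by
        exact_mod_cast (by omega : r + 1 - min (r + 1) D ≤ r + 1 - D₀)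
      have e2 : 2 * (D : ℝ) * (ε / (8 * (1 + D))) ≤ ε / 4 := by
        have h3 : (0 : ℝ) < 1 + D := by positivity
        rw [show 2 * (D : ℝ) * (ε / (8 * (1 + D))) = (ε / 4) * (D / (1 + D)) by
          field_simp; ring]
        refine mul_le_of_le_one_right (by positivity) ?_
        rw [div_le_one h3]; linarith
      linarith)
  refine ⟨E, hE1, ?_⟩
  intro q Pt S hPt hD
  obtain ⟨U₀, hU₀, h⟩ := hE2 ⟨⟨q, Pt, S⟩, hPt, hD⟩
  refine ⟨U₀, hU₀, ?_⟩
  intro M _ _ _ x hM hx hxE hht hnz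
  by_contra hcon
  push Not at hcon
  have hbad : A ⟨⟨q, Pt, S⟩, hPt, hD⟩ (minpoly K x) := by
    refine ⟨M, inferInstance, inferInstance, inferInstance, x, hM, hx, rfl, fun j =>
      ⟨hnz j, ?_⟩⟩
    have hfin : {w : HeightOneSpectrum (𝓞 M) |
        (∀ p ∈ S, p ≠ 0 → (p : 𝓞 M) ∉ w.asIdeal) ∧ Mt x w (Pt j)}.Finite :=
      (mt_finite x (Pt j) (hnz j)).subset fun w hw => hw.2
    refine ⟨hfin.toFinset, fun w h1 h2 => ?_, ?_⟩
    · rw [Set.Finite.mem_toFinset]
      exact ⟨h1, h2⟩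
    · exact (hcon j hfin.toFinset fun w hw => by
        rw [Set.Finite.mem_toFinset] at hw
        exact hw).le
  obtain ⟨M', _, _, _, x', hM', hx', hxp', hU'⟩ := h _ hxE hbad
  rw [← ht_inv x x' hM hx hM' hxp'.symm] at hU'
  linarith

end Pool.Agent.J6H60.DR
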