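import Mathlib
import Pool.Agent.J6H60.DR.LineW3

/-!
# The poles of a rational function
-/

set_option autoImplicit false
set_option linter.unusedSectionVars false

namespace Pool.Agent.J6H60.DR

open NumberField IsDedekindDomain Module Polynomial Pool.Agent.N753.DR Height

section val

variable {M Γ : Type} [Field M] [LinearOrderedCommGroupWithZero Γ] (v : Valuation M Γ)

theorem val_le {K : Type} [Field K] [Algebra K M] {P : K[X]} {x : M} (hx : v x ≤ 1)
    (hP : ∀ i, v (algebraMap K M (P.coeff i)) ≤ 1) : v (aeval x P) ≤ 1 := by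
  rw [aeval_eq_sum_range]
  refine Valuation.map_sum_le v fun i _ => ?_
  rw [Algebra.smul_def, map_mul, map_pow]
  exact mul_le_one' (hP i) (pow_le_one' hx i)

theorem val_inf {K : Type} [Field K] [Algebra K M] {P : K[X]} {x : M} (hx : 1 < v x)
    (hP : ∀ i, v (algebraMap K M (P.coeff i)) ≤ 1)
    (hl : v (algebraMap K M P.leadingCoeff) = 1) : v (aeval x P) = v x ^ P.natDegree := by
  rw [aeval_eq_sum_range, Finset.sum_range_succ]
  have h0 : v x ≠ 0 := by
    intro h
    rw [h] at hx
    exact absurd hx (by simp)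
  have h1 : v (P.coeff P.natDegree • x ^ P.natDegree) = v x ^ P.natDegree := by
    rw [Algebra.smul_def, map_mul, map_pow]
    have : v (algebraMap K M (P.coeff P.natDegree)) = 1 := hl
    rw [this, one_mul]
  rw [← h1]
  refine Valuation.map_add_eq_of_lt_right v ?_
  rw [h1]
  refine Valuation.map_sum_lt v (pow_ne_zero _ h0) fun i hi => ?_
  rw [Finset.mem_range] at hi
  rw [Algebra.smul_def, map_mul, map_pow]
  refine lt_of_le_of_lt (mul_le_of_le_one_left' (hP i)) ?_
  exact pow_lt_pow_right₀ hx hi

end val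

section poles

variable {K : Type} [Field K]

open Classical in
/-- the closed point of a monic irreducible polynomial -/
noncomputable def clF (F : K[X]) : Cl K := if h : F.Monic ∧ Irreducible F then some ⟨F, h⟩ else none

open Classical in
/-- the monic irreducible factors -/
noncomputable def fac (B : K[X]) : Finset K[X] :=
  (UniqueFactorizationMonoid.normalizedFactors B).toFinset

theorem mem_fac {B F : K[X]} (hB : B ≠ 0) : F ∈ fac B ↔ F.Monic ∧ Irreducible F ∧ F ∣ B := by
  classical
  unfold fac
  rw [Multiset.mem_toFinset, UniqueFactorizationMonoid.mem_normalizedFactors_iff' hB]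
  constructor
  · rintro ⟨h1, h2, h3⟩
    refine ⟨?_, h1, h3⟩
    rw [← h2]
    exact Polynomial.monic_normalize h1.ne_zero
  · rintro ⟨h1, h2, h3⟩
    exact ⟨h2, h1.normalize_eq_self, h3⟩

open Classical in
/-- the poles of `A / B` -/
noncomputable def poles (A B : K[X]) : Finset (Cl K) :=
  (fac B).image clF ∪ if B.natDegree < A.natDegree then {none} else ∅

/-- the number of the different poles of `A / B` on the projective line over the algebraic
closure -/
noncomputable def poleCount (A B : K[X]) : ℕ :=
  {z : AlgebraicClosure K | aeval z B = 0}.ncard + if B.natDegree < A.natDegree then 1 else 0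

open Classical in
theorem card_aroots [CharZero K] {F : K[X]} (hF : Irreducible F) :
    (F.aroots (AlgebraicClosure K)).toFinset.card = F.natDegree := by
  have h1 := Polynomial.card_rootSet_eq_natDegree (K := AlgebraicClosure K) hF.separable
    (IsAlgClosed.splits _)
  rw [← h1, ← Nat.card_eq_fintype_card, Polynomial.rootSet, Nat.card_coe_set_eq,
    Set.ncard_coe_finset]

open Classical in
theorem roots_set {B : K[X]} (hB : B ≠ 0) : {z : AlgebraicClosure K | aeval z B = 0} =
    ((B.map (algebraMap K (AlgebraicClosure K))).roots.toFinset : Set (AlgebraicClosure K)) := by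
  have h0 : B.map (algebraMap K (AlgebraicClosure K)) ≠ 0 :=
    (Polynomial.map_ne_zero_iff (algebraMap K _).injective).2 hB
  ext z
  rw [Finset.mem_coe, Multiset.mem_toFinset, mem_roots h0, IsRoot.def, eval_map_algebraMap]
  exact Iff.rfl

theorem card_roots_eq [CharZero K] {B : K[X]} (hB : B ≠ 0) :
    {z : AlgebraicClosure K | aeval z B = 0}.ncard = ∑ F ∈ fac B, F.natDegree := by
  classical
  have h0 : B.map (algebraMap K (AlgebraicClosure K)) ≠ 0 :=
    (Polynomial.map_ne_zero_iff (algebraMap K _).injective).2 hB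
  rw [roots_set hB, Set.ncard_coe_finset]
  have hmem : ∀ z : AlgebraicClosure K,
      z ∈ (B.map (algebraMap K (AlgebraicClosure K))).roots.toFinset ↔ aeval z B = 0 := by
    intro z
    rw [Multiset.mem_toFinset, mem_roots h0, IsRoot.def, eval_map_algebraMap]
  rw [Finset.card_eq_sum_card_fiberwise (f := fun z => minpoly K z) (t := fac B)]
  · refine Finset.sum_congr rfl fun F hF => ?_
    rw [mem_fac hB] at hF
    rw [← card_aroots hF.2.1]
    congr 1
    ext z
    rw [Finset.mem_filter, hmem, Multiset.mem_toFinset, mem_aroots]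
    constructor
    · rintro ⟨h1, h2⟩
      refine ⟨hF.2.1.ne_zero, ?_⟩
      rw [← h2]
      exact minpoly.aeval K z
    · rintro ⟨-, h2⟩
      refine ⟨?_, ?_⟩
      · obtain ⟨G, hG⟩ := hF.2.2
        rw [hG, map_mul, h2, zero_mul]
      · exact (minpoly.eq_of_irreducible_of_monic hF.2.1 h2 hF.1).symm
  · intro z hz
    rw [Finset.mem_coe, hmem] at hz
    rw [Finset.mem_coe, mem_fac hB]
    have hi : IsIntegral K z := Algebra.IsIntegral.isIntegral z
    exact ⟨minpoly.monic hi, minpoly.irreducible hi, minpoly.dvd K z hz⟩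

theorem sum_dg [CharZero K] (A : K[X]) {B : K[X]} (hB : B ≠ 0) :
    ∑ p ∈ poles A B, dg p = poleCount A B := by
  classical
  have hcl : ∀ F ∈ fac B, ∃ h : F.Monic ∧ Irreducible F, clF F = some ⟨F, h⟩ := by
    intro F hF
    rw [mem_fac hB] at hF
    exact ⟨⟨hF.1, hF.2.1⟩, dif_pos ⟨hF.1, hF.2.1⟩⟩
  unfold poles poleCount
  rw [Finset.sum_union]
  · congr 1
    · rw [Finset.sum_image, card_roots_eq hB]
      · refine Finset.sum_congr rfl fun F hF => ?_
        obtain ⟨h, h1⟩ := hcl F hF
        rw [h1]
        rfl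
      · intro F hF F' hF' h
        obtain ⟨h1, h2⟩ := hcl F hF
        obtain ⟨h1', h2'⟩ := hcl F' hF'
        rw [h2, h2'] at h
        exact congrArg Subtype.val (Option.some.inj h)
    · split_ifs
      · rw [Finset.sum_singleton]; rfl
      · rfl
  · rw [Finset.disjoint_left]
    intro p hp hp'
    obtain ⟨F, hF, rfl⟩ := Finset.mem_image.1 hp
    obtain ⟨h1, h2⟩ := hcl F hF
    rw [h2] at hp'
    split_ifs at hp'
    · rw [Finset.mem_singleton] at hp'
      exact absurd hp' (by simp)
    · exact absurd hp' (Finset.notMem_empty _)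

end poles

variable {K : Type} [Field K] [NumberField K]

/-- the coefficients of finitely many polynomials are units or zero -/
theorem exists_unit (Z : Finset K[X]) : ∃ n : ℕ, n ≠ 0 ∧
    ∀ (M : Type) [Field M] [NumberField M] [Algebra K M] (w : HeightOneSpectrum (𝓞 M)),
      (n : 𝓞 M) ∉ w.asIdeal → ∀ P ∈ Z, (∀ i, w.valuation M (algebraMap K M (P.coeff i)) ≤ 1) ∧
        (P ≠ 0 → w.valuation M (algebraMap K M P.leadingCoeff) = 1) := by
  classical
  obtain ⟨n, hn, h⟩ := Pool.Agent.N707.DRVkG.sepZ (Z.biUnion fun P => P.coeffs)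
  refine ⟨n, hn, fun M _ _ _ w hw P hP => ⟨fun i => ?_, fun hP0 => ?_⟩⟩
  · by_cases h0 : P.coeff i = 0
    · rw [h0, map_zero, map_zero]; exact zero_le_one
    · refine (h M w hw _ (Finset.mem_biUnion.2 ⟨P, hP, ?_⟩) h0).le
      exact coeff_mem_coeffs h0
  · have h0 : P.leadingCoeff ≠ 0 := leadingCoeff_ne_zero.2 hP0
    refine h M w hw _ (Finset.mem_biUnion.2 ⟨P, hP, ?_⟩) h0
    exact coeff_mem_coeffs h0

/-- at a good prime at which `x` meets a pole, the value has a pole -/
theorem pole_val {A B : K[X]} (hAB : IsCoprime A B) (hB : B ≠ 0) : ∃ n : ℕ, n ≠ 0 ∧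
    ∀ (M : Type) [Field M] [NumberField M] [Algebra K M] (x : M) (w : HeightOneSpectrum (𝓞 M)),
      (n : 𝓞 M) ∉ w.asIdeal → aeval x B ≠ 0 → ∀ p ∈ poles A B, Mt x w p →
        1 < w.valuation M (aeval x A / aeval x B) := by
  classical
  obtain ⟨U, V, hUV⟩ := hAB
  obtain ⟨n, hn, h⟩ := exists_unit ({A, B, U, V} ∪ (fac B).image fun F => B /ₘ F)
  refine ⟨n, hn, fun M _ _ _ x w hw hx p hp hM => ?_⟩
  have hz := h M w hw
  have hA := hz A (by simp)
  have hB' := hz B (by simp)
  have hU := hz U (by simp)
  have hV := hz V (by simp)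
  have hBv : w.valuation M (aeval x B) ≠ 0 := (Valuation.ne_zero_iff _).2 hx
  rw [map_div₀, one_lt_div₀ (zero_lt_iff.2 hBv)]
  unfold poles at hp
  rw [Finset.mem_union] at hp
  rcases hp with hp | hp
  · obtain ⟨F, hF, rfl⟩ := Finset.mem_image.1 hp
    have hF' := (mem_fac hB).1 hF
    have hcl : clF F = some ⟨F, hF'.1, hF'.2.1⟩ := dif_pos ⟨hF'.1, hF'.2.1⟩
    rw [hcl] at hM
    obtain ⟨hx1, hxF⟩ := hM
    simp only at hxF
    have hG := hz (B /ₘ F) (Finset.mem_union_right _ (Finset.mem_image_of_mem _ hF))
    have hBF : B = F * (B /ₘ F) := by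
      obtain ⟨G, hG'⟩ := hF'.2.2
      have : B /ₘ F = G := by
        conv_lhs => rw [hG']
        exact mul_divByMonic_cancel_left _ hF'.1
      rw [this]; exact hG'
    have hBlt : w.valuation M (aeval x B) < 1 := by
      rw [hBF, map_mul, map_mul]
      exact lt_of_le_of_lt (mul_le_of_le_one_right' (val_le _ hx1 hG.1)) hxF
    have hA1 : w.valuation M (aeval x A) = 1 := by
      refine le_antisymm (val_le _ hx1 hA.1) ?_
      by_contra hcon
      rw [not_le] at hcon
      have h1 : aeval x U * aeval x A + aeval x V * aeval x B = 1 := by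
        rw [← map_mul, ← map_mul, ← map_add, hUV, map_one]
      have h2 : w.valuation M (aeval x U * aeval x A) < 1 := by
        rw [map_mul]
        exact lt_of_le_of_lt (mul_le_of_le_one_left' (val_le _ hx1 hU.1)) hcon
      have h3 : w.valuation M (aeval x V * aeval x B) < 1 := by
        rw [map_mul]
        exact lt_of_le_of_lt (mul_le_of_le_one_left' (val_le _ hx1 hV.1)) hBlt
      have h4 := (w.valuation M).map_add (aeval x U * aeval x A) (aeval x V * aeval x B)
      rw [h1, map_one] at h4
      exact absurd h4 (not_le.2 (max_lt h2 h3))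
    rw [hA1]
    exact hBlt
  · split_ifs at hp with hdeg
    · rw [Finset.mem_singleton] at hp
      rw [hp] at hM
      have hx1 : 1 < w.valuation M x := hM
      have hA0 : A ≠ 0 := by
        rintro rfl
        rw [natDegree_zero] at hdeg
        omega
      rw [val_inf _ hx1 hA.1 (hA.2 hA0), val_inf _ hx1 hB'.1 (hB'.2 hB)]
      exact pow_lt_pow_right₀ hx1 hdeg
    · exact absurd hp (Finset.notMem_empty _)

theorem nz_of {A B : K[X]} (hB : B ≠ 0) {M : Type} [Field M] [Algebra K M] {x : M}
    (hx : aeval x B ≠ 0) {p : Cl K} (hp : p ∈ poles A B) : Nz x p := by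
  classical
  unfold poles at hp
  rw [Finset.mem_union] at hp
  rcases hp with hp | hp
  · obtain ⟨F, hF, rfl⟩ := Finset.mem_image.1 hp
    have hF' := (mem_fac hB).1 hF
    have hcl : clF F = some ⟨F, hF'.1, hF'.2.1⟩ := dif_pos ⟨hF'.1, hF'.2.1⟩
    rw [hcl]
    show aeval x F ≠ 0
    intro h0
    obtain ⟨G, hG⟩ := hF'.2.2
    apply hx
    rw [hG, map_mul, h0, zero_mul]
  · split_ifs at hp
    · rw [Finset.mem_singleton] at hp
      rw [hp]
      trivial
    · exact absurd hp (Finset.notMem_empty _)

theorem poleCount_le {A B : K[X]} (hB : B ≠ 0) :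
    poleCount A B ≤ max A.natDegree B.natDegree := by
  classical
  have h0 : (B.map (algebraMap K (AlgebraicClosure K))).natDegree = B.natDegree :=
    natDegree_map _
  have h1 : {z : AlgebraicClosure K | aeval z B = 0}.ncard ≤ B.natDegree := by
    rw [roots_set hB, Set.ncard_coe_finset]
    exact (Multiset.toFinset_card_le _).trans ((card_roots' _).trans h0.le)
  unfold poleCount
  split_ifs with h
  · have := le_max_left A.natDegree B.natDegree
    omega
  · have := le_max_right A.natDegree B.natDegree
    omega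

end Pool.Agent.J6H60.DR
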