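import Mathlib
import Pool.Agent.J6H60.DR.LineW4
import Pool.Agent.J6H60.DR.CoreK

/-!
# Points of degree `r` over `K` and extensions `k` of `K`: the count
-/

set_option autoImplicit false
set_option linter.unusedSectionVars false

namespace Pool.Agent.J6H60.DR

open NumberField IsDedekindDomain Module Polynomial Pool.Agent.N753.DR Height
open Pool.Agent.N262.DR (lN_nonneg sum_under_le over_eq badS_finite pow_bound Bx_finite gp gp_eq
  ht_inv)

/-- the rank over a smaller field -/
theorem rk_scalar {K k : Type} [Field K] [Field k] [Algebra K k] {m q : ℕ} (L : Fin q → Type)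
    [∀ j, Field (L j)] [∀ j, Algebra K (L j)] [∀ j, Algebra k (L j)]
    [∀ j, IsScalarTower K k (L j)] (γ : ∀ j, Fin m → L j) : rk k L γ ≤ rk K L γ := by
  classical
  set v : Fin m → ∀ j, L j := fun i => (fun j => γ j i : ∀ j, L j) with hv
  obtain ⟨κ, a, ha, hspan, hli⟩ := exists_linearIndependent' k v
  have : Finite κ := Finite.of_injective a ha
  have : Fintype κ := Fintype.ofFinite κ
  have hrank : finrank k (Submodule.span k (Set.range v)) = Fintype.card κ := by
    rw [← hspan]
    exact finrank_span_eq_card hli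
  have hli' : LinearIndependent K (v ∘ a) := by
    refine hli.restrict_scalars ?_
    intro x y hxy
    simp only [Algebra.smul_def, mul_one] at hxy
    exact (algebraMap K k).injective hxy
  have h2 : finrank K (Submodule.span K (Set.range (v ∘ a))) = Fintype.card κ :=
    finrank_span_eq_card hli'
  have h3 : rk k L γ = finrank k (Submodule.span k (Set.range v)) := rfl
  have h4 : rk K L γ = finrank K (Submodule.span K (Set.range v)) := rfl
  rw [h3, h4, hrank, ← h2]
  have hfin : Module.Finite K (Submodule.span K (Set.range v)) :=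
    Module.Finite.span_of_finite K (Set.finite_range v)
  refine Submodule.finrank_mono (Submodule.span_mono ?_)
  rintro _ ⟨i, rfl⟩
  exact ⟨a i, rfl⟩

section base

variable {K k M : Type} [Field K] [NumberField K] [Field k] [NumberField k] [Algebra K k]
  [Field M] [NumberField M] [Algebra K M] [Algebra k M] [IsScalarTower K k M]

theorem minpoly_map {r : ℕ} (x : M) (h1 : (minpoly k x).natDegree = r)
    (h2 : (minpoly K x).natDegree = r) :
    minpoly k x = (minpoly K x).map (algebraMap K k) := by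
  have hfd : FiniteDimensional K M := Module.Finite.of_restrictScalars_finite ℚ K M
  have hfd' : FiniteDimensional k M := Module.Finite.of_restrictScalars_finite ℚ k M
  have hx : IsIntegral K x := IsIntegral.of_finite K x
  have hx' : IsIntegral k x := IsIntegral.of_finite k x
  refine (eq_of_monic_of_dvd_of_natDegree_le (minpoly.monic hx')
    ((minpoly.monic hx).map (algebraMap K k)) ?_ ?_).symm
  · exact minpoly.dvd_map_of_isScalarTower K k x
  · rw [natDegree_map, h1, h2]

/-- the subfield generated over `K` -/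
theorem exists_sub {r : ℕ} (hr : 1 ≤ r) (x : M) (hM : finrank k M = r)
    (h2 : (minpoly K x).natDegree = r) :
    ∃ (M₀ : Type) (_ : Field M₀) (_ : NumberField M₀) (_ : Algebra K M₀) (x₀ : M₀),
      finrank K M₀ = r ∧ minpoly K x₀ = minpoly K x ∧
      logHeight₁ x = finrank K k * logHeight₁ x₀ := by
  have hfd : FiniteDimensional K M := Module.Finite.of_restrictScalars_finite ℚ K M
  have hx : IsIntegral K x := IsIntegral.of_finite K x
  have hfr : finrank K (IntermediateField.adjoin K {x}) = r := by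
    rw [IntermediateField.adjoin.finrank hx, h2]
  have hfd1 : FiniteDimensional K (IntermediateField.adjoin K {x}) :=
    IntermediateField.adjoin.finiteDimensional hx
  have hfdQ : FiniteDimensional ℚ (IntermediateField.adjoin K {x}) := Module.Finite.trans K _
  have hch : CharZero (IntermediateField.adjoin K {x}) :=
    charZero_of_injective_algebraMap (algebraMap K _).injective
  have hN : NumberField (IntermediateField.adjoin K {x}) :=
    { to_charZero := hch, to_finiteDimensional := hfdQ }
  refine ⟨IntermediateField.adjoin K {x}, inferInstance, hN, inferInstance,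
    IntermediateField.AdjoinSimple.gen K x, hfr, ?_, ?_⟩
  · exact IntermediateField.minpoly_gen K x
  · have h3 := Pool.Agent.N415.DRVK.ht_ext (k := IntermediateField.adjoin K {x}) (L := M)
      (IntermediateField.AdjoinSimple.gen K x)
    rw [IntermediateField.AdjoinSimple.algebraMap_gen] at h3
    rw [h3]
    congr 1
    have h4 := finrank_mul_finrank K (IntermediateField.adjoin K {x}) M
    have h5 := finrank_mul_finrank K k M
    rw [hfr] at h4
    rw [hM] at h5
    have h6 : r * finrank (IntermediateField.adjoin K {x}) M = r * finrank K k := by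
      rw [h4, ← h5, mul_comm]
    exact_mod_cast Nat.eq_of_mul_eq_mul_left (by omega) h6

end base

/-- `p` is the minimal polynomial over `K` of a number of degree `r` over `K` and over `k` for
which all the truncated counting functions of the closed points over `k` are at most `δ` times the
height -/
def BadK {K : Type} [Field K] [NumberField K] (k : Type) [Field k] [NumberField k] [Algebra K k]
    (r : ℕ) {q : ℕ} (S : Finset ℕ) (Pt : Fin q → Cl k) (δ : ℝ) (p : K[X]) : Prop :=
  ∃ (M : Type) (_ : Field M) (_ : NumberField M) (_ : Algebra K M) (_ : Algebra k M)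
    (_ : IsScalarTower K k M) (x : M),
    finrank k M = r ∧ (minpoly k x).natDegree = r ∧ (minpoly K x).natDegree = r ∧
    minpoly K x = p ∧ ∀ j, Nz x (Pt j) ∧
    ∃ W : Finset (HeightOneSpectrum (𝓞 M)),
      (∀ w, (∀ p ∈ S, p ≠ 0 → (p : 𝓞 M) ∉ w.asIdeal) → Mt x w (Pt j) → w ∈ W) ∧
      ∑ w ∈ W, lN w ≤ δ * logHeight₁ x

/-- few points have small truncated counting functions -/
theorem cntK {K k : Type} [Field K] [NumberField K] [Field k] [NumberField k] [Algebra K k]
    (r : ℕ) (hr : 1 ≤ r) (S : Finset ℕ) {q : ℕ} (Pt : Fin q → Cl k)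
    (hPt : Function.Injective Pt) (δ : ℝ) (hδ : 0 ≤ δ) {ε : ℝ} (hε : 0 < ε) :
    ∃ C : ℝ, 0 < C ∧ ∀ U : ℝ, 0 ≤ U → {p : K[X] | BadK k r S Pt δ p ∧ AtH r U p}.Finite ∧
      ({p : K[X] | BadK k r S Pt δ p ∧ AtH r U p}.ncard : ℝ) ≤
        C * Real.exp ((((r + 1 - min (r + 1) (∑ j, dg (Pt j)) : ℕ) : ℝ) + ε +
          2 * (∑ j, dg (Pt j) : ℕ) * (δ * finrank K k)) * U) := by
  classical
  choose P hPd hPV Bad0 hP using fun j => exists_pl (K := k) r hr (Pt j)
  letI aK : ∀ j, Algebra K (P j).L := fun j =>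
    ((algebraMap k (P j).L).comp (algebraMap K k)).toAlgebra
  have hst : ∀ j, IsScalarTower K k (P j).L := fun j => IsScalarTower.of_algebraMap_eq' rfl
  obtain ⟨BadR, C0, hC0, hR⟩ := Pool.Agent.N459.DR.t K r hr
  choose Wo hWo _ using fun v : HeightOneSpectrum (𝓞 K) => sum_over_le (L := k) v
  set BadS := (badS_finite (K := k) S).toFinset with hBadS
  set Bad := (Finset.univ.biUnion Bad0) ∪ (BadR.biUnion Wo) ∪ BadS with hBad
  set n : ℝ := (finrank ℚ K : ℝ) with hn
  have hn0 : 0 < n := by
    rw [hn]; exact_mod_cast (Module.finrank_pos : 0 < finrank ℚ K)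
  obtain ⟨C1, hC1, hcore⟩ := coreWk (K := K) (k := k) (m := r + 1) (fun j => (P j).L)
    (fun j => (P j).γ) Bad (ε := n * ε) (by positivity)
  set ρ := rk K (fun j => (P j).L) (fun j => (P j).γ) with hρ
  have hρ1 : min (r + 1) (∑ j, dg (Pt j)) ≤ ρ :=
    (rk_line (fun j => (P j).L) (fun j => (P j).γ) Pt hPt hPV).trans
      (rk_scalar (K := K) (k := k) (fun j => (P j).L) (fun j => (P j).γ))
  have hs : (∑ j, (finrank k (P j).L : ℝ)) = ((∑ j, dg (Pt j) : ℕ) : ℝ) := by
    rw [Nat.cast_sum]
    exact Finset.sum_congr rfl fun j _ => by rw [hPd j]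
  set D := ∑ j, dg (Pt j) with hD
  set dK : ℝ := (finrank K k : ℝ) with hdK
  have hdK0 : 0 ≤ dK := Nat.cast_nonneg _
  set c0 : ℝ := max C0 1 with hc0
  have hc01 : 1 ≤ c0 := le_max_right _ _
  set e : ℝ := n * ((r + 1 - min (r + 1) D : ℕ) : ℝ) + n * ε with he
  have he0 : 0 ≤ e := by positivity
  refine ⟨C1 * (2 * c0) ^ |e|, by positivity, fun U hU => ?_⟩
  set y : ℝ := Real.exp (U / n) with hy
  have hy1 : 1 ≤ y := Real.one_le_exp (by positivity)
  set B : ℕ := ⌈c0 * y⌉₊ with hB
  have hBl : c0 * y ≤ B := Nat.le_ceil _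
  have hBu : (B : ℝ) ≤ 2 * c0 * y := by
    have := Nat.ceil_lt_add_one (a := c0 * y) (by positivity)
    have : 1 ≤ c0 * y := one_le_mul_of_one_le_of_one_le hc01 hy1
    linarith
  have hyB : y ≤ B := by
    have : 1 * y ≤ c0 * y := mul_le_mul_of_nonneg_right hc01 (by positivity)
    linarith
  have hB1 : 1 ≤ B := by
    have : (1 : ℝ) ≤ B := hy1.trans hyB
    exact_mod_cast this
  have hB1' : (1 : ℝ) ≤ B := by exact_mod_cast hB1
  set E := EWk (K := K) (fun j => (P j).L) (fun j => (P j).γ) Bad B (δ * dK * U) with hE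
  have hEf : E.Finite := (Bx_finite (K := K) (r + 1) B).subset fun c hc => hc.1
  have hsub : {p : K[X] | BadK k r S Pt δ p ∧ AtH r U p} ⊆ gp '' E := by
    rintro p ⟨⟨M, _, _, _, _, _, x, hM, hxk, hxK, hxp, hj⟩, ⟨M', _, _, _, x', hM', hx', hxp', hU'⟩⟩
    obtain ⟨M₀, _, _, _, x₀, hM₀, hx₀, hht₀⟩ := exists_sub (K := K) (k := k) hr x hM hxK
    have hx₀d : (minpoly K x₀).natDegree = r := by rw [hx₀, hxK]
    have hht : Height.logHeight₁ x₀ ≤ U := by
      rw [ht_inv x₀ x' hM₀ hx₀d hM' (hx₀.trans (hxp.trans hxp'.symm))]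
      exact hU'
    obtain ⟨c, l, hl, hcl, hprim, hsz⟩ := hR M₀ x₀ hM₀ hx₀d
    rw [hx₀] at hcl
    have hxint : IsIntegral K x := by
      have : FiniteDimensional K M := Module.Finite.of_restrictScalars_finite ℚ K M
      exact IsIntegral.of_finite K x
    have hlk : algebraMap K k l ≠ 0 := by
      rw [Ne, FaithfulSMul.algebraMap_eq_zero_iff]; exact hl
    have hclk : ∀ i, ((algebraMap (𝓞 K) (𝓞 k) (c i) : 𝓞 k) : k) =
        algebraMap K k l * (minpoly k x).coeff i := by
      intro i
      have h1 : ((algebraMap (𝓞 K) (𝓞 k) (c i) : 𝓞 k) : k) = algebraMap K k (c i : K) := rfl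
      rw [h1, hcl i, map_mul, minpoly_map (K := K) x hxk hxK, coeff_map]
    have hvalj : ∀ j, ∑ i, algebraMap K (P j).L (c i : K) * (P j).γ i =
        ∑ i, algebraMap k (P j).L ((algebraMap (𝓞 K) (𝓞 k) (c i) : 𝓞 k) : k) * (P j).γ i :=
      fun j => rfl
    refine ⟨c, ⟨?_, ?_⟩, ?_⟩
    · intro j
      have h4 := hsz j
      have h5 : Real.exp (Height.logHeight₁ x₀ / n) ≤ y :=
        Real.exp_le_exp.mpr (div_le_div_of_nonneg_right hht hn0.le)
      have h6 : (sz (c j) : ℝ) ≤ B := by
        refine h4.trans (le_trans ?_ hBl)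
        exact mul_le_mul (le_max_left _ _) h5 (Real.exp_pos _).le (by positivity)
      exact_mod_cast h6
    · intro j
      obtain ⟨hnz, W, hW, hWs⟩ := hj j
      obtain ⟨g1, g2⟩ := hP j M x (fun i => algebraMap (𝓞 K) (𝓞 k) (c i)) (algebraMap K k l)
        hM hxk hlk hclk
      refine ⟨?_, W.image fun u => HeightOneSpectrum.under (𝓞 k) u, ?_, ?_⟩
      · show ∑ i, algebraMap K (P j).L (c i : K) * (P j).γ i ≠ 0
        rw [hvalj j]
        exact g1 hnz
      · intro v hv w hw hev
        have hvR : HeightOneSpectrum.under (𝓞 K) v ∉ BadR := fun h => hv (by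
          simp only [hBad, Finset.mem_union]
          refine Or.inl (Or.inr (Finset.mem_biUnion.2 ⟨_, h, (hWo _ v).2 ⟨rfl⟩⟩)))
        have hvL : v ∉ Bad0 j := fun h => hv (by
          simp only [hBad, Finset.mem_union]
          exact Or.inl (Or.inl (Finset.mem_biUnion.2 ⟨j, Finset.mem_univ _, h⟩)))
        have hvS : v ∉ BadS := fun h => hv (by simp only [hBad, Finset.mem_union]; tauto)
        have hpv : ∃ i, algebraMap (𝓞 K) (𝓞 k) (c i) ∉ v.asIdeal := by
          obtain ⟨i, hi⟩ := hprim _ hvR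
          refine ⟨i, fun h => hi ?_⟩
          rw [HeightOneSpectrum.under_asIdeal, Ideal.under_def, Ideal.mem_comap]
          exact h
        obtain ⟨u, hu, huM⟩ := g2 v hvL hpv w hw (by
          have hev' : w.valuation (P j).L
            (∑ i, algebraMap K (P j).L (c i : K) * (P j).γ i) < 1 := hev
          rw [hvalj j] at hev'
          exact hev')
        have hunder := over_eq hu
        rw [Finset.mem_image]
        refine ⟨u, hW u ?_ huM, hunder⟩
        intro p hp hp0 hmem
        apply hvS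
        rw [hBadS, Set.Finite.mem_toFinset]
        refine ⟨p, hp, hp0, ?_⟩
        rw [← hunder, HeightOneSpectrum.under_asIdeal, Ideal.under_def, Ideal.mem_comap,
          map_natCast]
        exact hmem
      · have h4 : ∑ v ∈ W.image (fun u => HeightOneSpectrum.under (𝓞 k) u), lN v ≤
            ∑ u ∈ W, lN u := sum_under_le W _ fun v hv => Finset.mem_image.mp hv
        refine h4.trans (hWs.trans ?_)
        rw [hht₀, mul_assoc]
        exact mul_le_mul_of_nonneg_left (mul_le_mul_of_nonneg_left hht hdK0) hδ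
    · rw [← hxp]
      exact gp_eq (minpoly.monic hxint) hxK hl hcl
  have hfin : (gp '' E).Finite := hEf.image _
  refine ⟨hfin.subset hsub, ?_⟩
  have h4 : ({p : K[X] | BadK k r S Pt δ p ∧ AtH r U p}.ncard : ℝ) ≤ (E.ncard : ℝ) := by
    exact_mod_cast (Set.ncard_le_ncard hsub hfin).trans (Set.ncard_image_le hEf)
  refine h4.trans ((hcore B (δ * dK * U) hB1 (by positivity)).trans ?_)
  rw [hs]
  have h5 := pow_bound (c := 2 * c0) (B := B) (y := y) (E := e) (by linarith)
    (by positivity) hyB hBu
  have h6 : y ^ e = Real.exp ((((r + 1 - min (r + 1) D : ℕ) : ℝ) + ε) * U) := by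
    rw [hy, ← Real.exp_mul, he]
    congr 1
    field_simp
  rw [h6] at h5
  have h7 : (B : ℝ) ^ ((finrank ℚ K : ℝ) * (r + 1 - ρ : ℕ) + n * ε) ≤ (B : ℝ) ^ e := by
    refine Real.rpow_le_rpow_of_exponent_le hB1' ?_
    rw [he, ← hn]
    have h8 : ((r + 1 - ρ : ℕ) : ℝ) ≤ ((r + 1 - min (r + 1) D : ℕ) : ℝ) := by
      exact_mod_cast (by omega : r + 1 - ρ ≤ r + 1 - min (r + 1) D)
    have := mul_le_mul_of_nonneg_left h8 hn0.le
    linarith
  calc C1 * (B : ℝ) ^ ((finrank ℚ K : ℝ) * (r + 1 - ρ : ℕ) + n * ε) *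
        Real.exp (2 * (D : ℝ) * (δ * dK * U))
      ≤ C1 * ((2 * c0) ^ |e| * Real.exp ((((r + 1 - min (r + 1) D : ℕ) : ℝ) + ε) * U)) *
        Real.exp (2 * (D : ℝ) * (δ * dK * U)) := by
        refine mul_le_mul_of_nonneg_right (mul_le_mul_of_nonneg_left (h7.trans h5) hC1.le)
          (Real.exp_pos _).le
    _ = C1 * (2 * c0) ^ |e| * (Real.exp ((((r + 1 - min (r + 1) D : ℕ) : ℝ) + ε) * U) *
        Real.exp (2 * (D : ℝ) * (δ * dK * U))) := by ring
    _ = _ := by
        rw [← Real.exp_add]
        congr 2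
        ring

end Pool.Agent.J6H60.DR
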