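import Mathlib
import Pool.Agent.J6H60.DR.LineK1

/-!
# Points of degree `r` over `K` and extensions `k` of `K`: one exceptional set
-/

set_option autoImplicit false
set_option linter.unusedSectionVars false

namespace Pool.Agent.J6H60.DR

open NumberField IsDedekindDomain Module Polynomial Pool.Agent.N753.DR Height
open Pool.Agent.N262.DR (ht_inv)

section count

variable {K : Type} [Field K] [NumberField K]

theorem nf_of_fd (k : IntermediateField K (AlgebraicClosure K)) [FiniteDimensional K k] :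
    NumberField k :=
  { to_charZero := charZero_of_injective_algebraMap (algebraMap K k).injective
    to_finiteDimensional := Module.Finite.trans K k }

theorem fd_of_nf (k : IntermediateField K (AlgebraicClosure K)) [NumberField k] :
    FiniteDimensional K k := Module.Finite.of_restrictScalars_finite ℚ K k

theorem exists_gen (k : IntermediateField K (AlgebraicClosure K)) [FiniteDimensional K k] :
    ∃ θ : AlgebraicClosure K, IntermediateField.adjoin K {θ} = k := by
  obtain ⟨α, hα⟩ := Field.exists_primitive_element K k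
  refine ⟨(α : AlgebraicClosure K), ?_⟩
  have h1 := congrArg IntermediateField.lift hα
  rwa [IntermediateField.lift_adjoin_simple, IntermediateField.lift_top] at h1

theorem countable_closure : Countable (AlgebraicClosure K) := by
  have hK := Pool.Agent.N572.DR.KE.countable_nf K
  rw [← Cardinal.mk_le_aleph0_iff]
  refine (Algebra.IsAlgebraic.cardinalMk_le_max K (AlgebraicClosure K)).trans ?_
  exact max_le (Cardinal.mk_le_aleph0_iff.2 hK) le_rfl

theorem countable_fd :
    Countable {k : IntermediateField K (AlgebraicClosure K) // FiniteDimensional K k} := by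
  have hΩ := countable_closure (K := K)
  refine Function.Surjective.countable (α := AlgebraicClosure K) (f := fun θ =>
    ⟨IntermediateField.adjoin K {θ}, IntermediateField.adjoin.finiteDimensional
      (Algebra.IsIntegral.isIntegral θ)⟩) ?_
  rintro ⟨k, hk⟩
  obtain ⟨θ, hθ⟩ := exists_gen k
  exact ⟨θ, Subtype.ext hθ⟩

theorem countable_cl (k : IntermediateField K (AlgebraicClosure K)) [FiniteDimensional K k] :
    Countable (Cl k) := by
  have := nf_of_fd k
  have := Pool.Agent.N572.DR.KE.countable_pol k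
  infer_instance

end count

variable {K : Type} [Field K] [NumberField K]

/-- the indices: the extension, closed points and rational primes -/
structure Ix (K : Type) [Field K] [NumberField K] (D₀ : ℕ) where
  /-- the field -/
  k : {k : IntermediateField K (AlgebraicClosure K) // FiniteDimensional K k}
  /-- number of points -/
  q : ℕ
  /-- the points -/
  Pt : Fin q → Cl k.1
  /-- primes -/
  S : Finset ℕ
  inj : Function.Injective Pt
  deg : D₀ ≤ ∑ j, dg (Pt j)

theorem countable_ix (D₀ : ℕ) : Countable (Ix K D₀) := by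
  have h1 := countable_fd (K := K)
  have h2 : ∀ k : {k : IntermediateField K (AlgebraicClosure K) // FiniteDimensional K k},
      Countable (Cl k.1) := fun k => by
    have := k.2
    exact countable_cl k.1
  have h3 : Countable (Σ (k : {k : IntermediateField K (AlgebraicClosure K) //
      FiniteDimensional K k}) (q : ℕ), (Fin q → Cl k.1) × Finset ℕ) := inferInstance
  refine Function.Injective.countable (f := fun i : Ix K D₀ =>
    (⟨i.k, i.q, i.Pt, i.S⟩ : Σ (k : {k : IntermediateField K (AlgebraicClosure K) //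
      FiniteDimensional K k}) (q : ℕ), (Fin q → Cl k.1) × Finset ℕ)) ?_
  rintro ⟨k, q, Pt, S, _, _⟩ ⟨k', q', Pt', S', _, _⟩ h
  simp only [Sigma.mk.injEq] at h
  obtain ⟨rfl, h⟩ := h
  simp only [heq_eq_eq, Sigma.mk.injEq] at h
  obtain ⟨rfl, h⟩ := h
  simp only [heq_eq_eq, Prod.mk.injEq] at h
  obtain ⟨rfl, rfl⟩ := h
  rfl

/-- one exceptional set for all extensions -/
theorem oneK (r : ℕ) (hr : 1 ≤ r) (D₀ : ℕ) (hD₀ : D₀ ≤ r + 1) {ε : ℝ} (hε : 0 < ε) :
    ∃ E : Set K[X],
      (∀ U : ℝ, 0 ≤ U → {p | p ∈ E ∧ AtH r U p}.Finite ∧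
        ({p | p ∈ E ∧ AtH r U p}.ncard : ℝ) ≤
          Real.exp ((((r + 1 - D₀ : ℕ) : ℝ) + ε) * U - √U)) ∧
      ∀ (k : IntermediateField K (AlgebraicClosure K)) [NumberField k] (q : ℕ)
        (Pt : Fin q → Cl k) (S : Finset ℕ), Function.Injective Pt →
        D₀ ≤ ∑ j, dg (Pt j) → ∃ U₀ : ℝ, 0 ≤ U₀ ∧
        ∀ (M : Type) [Field M] [NumberField M] [Algebra K M] [Algebra k M]
          [IsScalarTower K k M] (x : M), finrank k M = r →
          (minpoly k x).natDegree = r → (minpoly K x).natDegree = r → minpoly K x ∉ E →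
          U₀ < logHeight₁ x →
          (∀ j, Nz x (Pt j)) → ∃ (j : Fin q) (W : Finset (HeightOneSpectrum (𝓞 M))),
            (∀ w ∈ W, (∀ p ∈ S, p ≠ 0 → (p : 𝓞 M) ∉ w.asIdeal) ∧ Mt x w (Pt j)) ∧
            ε / (8 * (1 + (∑ j, dg (Pt j) : ℕ)) * finrank K k) * logHeight₁ x ≤
              ∑ w ∈ W, lN w := by
  classical
  have hcK := Pool.Agent.N572.DR.KE.countable_pol K
  have hJ : Countable (Ix K D₀) := countable_ix D₀
  let A : Ix K D₀ → K[X] → Prop := fun s p =>
    haveI := s.k.2
    haveI := nf_of_fd s.k.1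
    BadK s.k.1 r s.S s.Pt (ε / (8 * (1 + (∑ j, dg (s.Pt j) : ℕ)) * finrank K s.k.1)) p
  obtain ⟨E, hE1, hE2⟩ := Pool.Agent.N572.DR.Diag.t K[X] (Ix K D₀) (fun U p => AtH r U p)
    (fun U U' p h hp => atH_mono h hp) A (((r + 1 - D₀ : ℕ) : ℝ) + ε) (by positivity) (by
      rintro ⟨⟨k, hk⟩, q, Pt, S, hPt, hD⟩
      have := nf_of_fd k
      simp only at hPt hD
      set D := ∑ j, dg (Pt j) with hDdef
      have hk0 : 0 < finrank K k := Module.finrank_pos
      have hk0' : (0 : ℝ) < finrank K k := by exact_mod_cast hk0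
      have hδ : 0 ≤ ε / (8 * (1 + (D : ℝ)) * finrank K k) := by positivity
      obtain ⟨C, hC, h⟩ := cntK (K := K) (k := k) r hr S Pt hPt
        (ε / (8 * (1 + (D : ℝ)) * finrank K k)) hδ (ε := ε / 4) (by positivity)
      refine ⟨ε / 2, C, by positivity, fun U hU => ?_⟩
      obtain ⟨h1, h2⟩ := h U hU
      refine ⟨h1, h2.trans (mul_le_mul_of_nonneg_left (Real.exp_le_exp.2 ?_) hC.le)⟩
      refine mul_le_mul_of_nonneg_right ?_ hU
      rw [← hDdef]
      have e1 : ((r + 1 - min (r + 1) D : ℕ) : ℝ) ≤ ((r + 1 - D₀ : ℕ) : ℝ) := by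
        exact_mod_cast (by omega : r + 1 - min (r + 1) D ≤ r + 1 - D₀)
      have e2 : 2 * (D : ℝ) * (ε / (8 * (1 + D) * finrank K k) * finrank K k) ≤ ε / 4 := by
        have h3 : (0 : ℝ) < 1 + D := by positivity
        rw [show 2 * (D : ℝ) * (ε / (8 * (1 + D) * finrank K k) * finrank K k) =
          (ε / 4) * (D / (1 + D)) by
          field_simp; ring]
        refine mul_le_of_le_one_right (by positivity) ?_
        rw [div_le_one h3]; linarith
      linarith)
  refine ⟨E, hE1, ?_⟩
  intro k _ q Pt S hPt hD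
  have hfd := fd_of_nf k
  obtain ⟨U₀, hU₀, h⟩ := hE2 ⟨⟨k, hfd⟩, q, Pt, S, hPt, hD⟩
  have hk0 : 0 < finrank K k := Module.finrank_pos
  refine ⟨finrank K k * U₀, by positivity, ?_⟩
  intro M _ _ _ _ _ x hM hx hxK hxE hht hnz
  by_contra hcon
  push Not at hcon
  have hbad : A ⟨⟨k, hfd⟩, q, Pt, S, hPt, hD⟩ (minpoly K x) := by
    refine ⟨M, inferInstance, inferInstance, inferInstance, inferInstance, inferInstance, x, hM,
      hx, hxK, rfl, fun j => ⟨hnz j, ?_⟩⟩
    have hfin : {w : HeightOneSpectrum (𝓞 M) |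
        (∀ p ∈ S, p ≠ 0 → (p : 𝓞 M) ∉ w.asIdeal) ∧ Mt x w (Pt j)}.Finite :=
      (mt_finite x (Pt j) (hnz j)).subset fun w hw => hw.2
    refine ⟨hfin.toFinset, fun w h1 h2 => ?_, ?_⟩
    · rw [Set.Finite.mem_toFinset]
      exact ⟨h1, h2⟩
    · exact (hcon j hfin.toFinset fun w hw => by
        rw [Set.Finite.mem_toFinset] at hw
        exact hw).le
  obtain ⟨M', _, _, _, x', hM', hx', hxp', hU'⟩ := h _ hxE hbad
  obtain ⟨M₀, _, _, _, x₀, hM₀, hx₀, hht₀⟩ := exists_sub (K := K) (k := k) hr x hM hxK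
  rw [← ht_inv x₀ x' hM₀ (by rw [hx₀, hxK]) hM' (hx₀.trans hxp'.symm)] at hU'
  rw [hht₀] at hht
  have h1 : (finrank K k : ℝ) * logHeight₁ x₀ ≤ finrank K k * U₀ :=
    mul_le_mul_of_nonneg_left hU' (Nat.cast_nonneg _)
  linarith

end Pool.Agent.J6H60.DR
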