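import Mathlib
import Pool.Agent.J6H60.DR.LineK2
import Pool.Agent.N490.FR.HtPure
import Pool.Agent.N751.LS.Pole

/-!
# Points of degree `r` over `K` and functions over extensions `k` of `K`: the poles of the value
-/

set_option autoImplicit false
set_option linter.unusedSectionVars false

namespace Pool.Agent.J6H60.DR

open NumberField IsDedekindDomain Module Polynomial Pool.Agent.N753.DR Height

variable {K : Type} [Field K] [NumberField K]

/-- one exceptional set for all functions over all extensions -/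
theorem lineK (r : ℕ) (hr : 1 ≤ r) (D₀ : ℕ) (hD₀ : D₀ ≤ r + 1) (hD₁ : 1 ≤ D₀) {ε : ℝ}
    (hε : 0 < ε) :
    ∃ E : Set K[X],
      (∀ U : ℝ, 0 ≤ U → {p | p ∈ E ∧ AtH r U p}.Finite ∧
        ({p | p ∈ E ∧ AtH r U p}.ncard : ℝ) ≤
          Real.exp ((((r + 1 - D₀ : ℕ) : ℝ) + ε) * U - √U)) ∧
      ∀ (k : IntermediateField K (AlgebraicClosure K)) [NumberField k] (A B : k[X]) (N : ℕ),
        IsCoprime A B → B ≠ 0 → max A.natDegree B.natDegree = N → D₀ ≤ poleCount A B →
        ∃ U₀ : ℝ, ∀ (M : Type) [Field M] [NumberField M] [Algebra K M] [Algebra k M]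
          [IsScalarTower K k M] (x : M), finrank k M = r →
          (minpoly k x).natDegree = r → (minpoly K x).natDegree = r → minpoly K x ∉ E →
          U₀ ≤ logHeight₁ x → aeval x B ≠ 0 ∧ ∃ W : Finset (HeightOneSpectrum (𝓞 M)),
            (∀ w ∈ W, 1 < w.valuation M (aeval x A / aeval x B)) ∧
            logHeight₁ (aeval x A / aeval x B) ≤
              (N + 1) * (8 * (1 + N) * finrank K k / ε) * ∑ w ∈ W, lN w := by
  classical
  obtain ⟨E, hE1, hE2⟩ := oneK (K := K) r hr D₀ hD₀ hε
  refine ⟨E, hE1, ?_⟩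
  intro k _ A B N hAB hB hN hD
  have hfd := fd_of_nf k
  obtain ⟨n, hn, hval⟩ := pole_val (K := k) hAB hB
  set q : ℕ := (poles A B).card with hq
  set Pt : Fin q → Cl k := fun i => ((poles A B).equivFin.symm i).1 with hPt
  have hPtmem : ∀ i, Pt i ∈ poles A B := fun i => ((poles A B).equivFin.symm i).2
  have hinj : Function.Injective Pt := fun i j h =>
    (poles A B).equivFin.symm.injective (Subtype.ext h)
  have hsum : ∑ j, dg (Pt j) = poleCount A B := by
    rw [← sum_dg A hB, ← Finset.sum_coe_sort (poles A B) fun p => dg p]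
    exact Fintype.sum_equiv (poles A B).equivFin.symm _ _ fun i => rfl
  obtain ⟨U₀, hU₀, hmain⟩ := hE2 k q Pt {n} hinj (by rw [hsum]; exact hD)
  obtain ⟨C₁, hC₁, hroot⟩ := Pool.Agent.N751.LS.ht_poly_root (K := k) B hB
  obtain ⟨C₂, hup⟩ := Pool.Agent.N490.FR.upper (K := k) A B r
  refine ⟨max (U₀ + 1) (max ((finrank ℚ k * r : ℕ) * C₁ + 1) C₂), ?_⟩
  intro M _ _ _ _ _ x hM hx hxK hxE hU
  have hU1 : U₀ < logHeight₁ x := by
    have := (le_max_left _ _).trans hU
    linarith
  have hU2 : ((finrank ℚ k * r : ℕ) : ℝ) * C₁ < logHeight₁ x := by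
    have := (le_max_left _ _).trans ((le_max_right _ _).trans hU)
    linarith
  have hU3 : C₂ ≤ logHeight₁ x := (le_max_right _ _).trans ((le_max_right _ _).trans hU)
  have hQ : finrank ℚ k * r = finrank ℚ M := by
    rw [← hM]; exact finrank_mul_finrank ℚ k M
  have hB0 : aeval x B ≠ 0 := by
    intro h0
    have h1 := hroot M x h0
    rw [← hQ] at h1
    linarith
  refine ⟨hB0, ?_⟩
  obtain ⟨j, W, hW, hWs⟩ := hmain M x hM hx hxK hxE hU1 fun j => nz_of hB hB0 (hPtmem j)
  refine ⟨W, fun w hw => ?_, ?_⟩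
  · obtain ⟨h1, h2⟩ := hW w hw
    exact hval M x w (h1 n (Finset.mem_singleton_self n) hn) hB0 (Pt j) (hPtmem j) h2
  · have h1 := hup M x hM
    rw [hN] at h1
    have h2 : logHeight₁ (aeval x A / aeval x B) ≤ (N + 1) * logHeight₁ x := by
      rw [add_mul, one_mul]
      linarith
    have hk0 : 0 < finrank K k := Module.finrank_pos
    have hk0' : (0 : ℝ) < finrank K k := by exact_mod_cast hk0
    have hDN : (poleCount A B : ℝ) ≤ N := by
      rw [← hN]; exact_mod_cast poleCount_le hB
    have hh : 0 ≤ logHeight₁ x := zero_le_logHeight₁ x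
    rw [hsum] at hWs
    have h3 : ε / (8 * (1 + N) * finrank K k) * logHeight₁ x ≤ ∑ w ∈ W, lN w := by
      refine le_trans (mul_le_mul_of_nonneg_right ?_ hh) hWs
      refine div_le_div_of_nonneg_left hε.le (by positivity) ?_
      refine mul_le_mul_of_nonneg_right ?_ hk0'.le
      linarith
    have h4 : logHeight₁ x ≤ (8 * (1 + N) * finrank K k / ε) * ∑ w ∈ W, lN w := by
      have h5 := mul_le_mul_of_nonneg_left h3
        (by positivity : (0 : ℝ) ≤ 8 * (1 + N) * finrank K k / ε)
      refine le_trans (le_of_eq ?_) h5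
      field_simp
    calc logHeight₁ (aeval x A / aeval x B) ≤ (N + 1) * logHeight₁ x := h2
      _ ≤ (N + 1) * ((8 * (1 + N) * finrank K k / ε) * ∑ w ∈ W, lN w) :=
          mul_le_mul_of_nonneg_left h4 (by positivity)
      _ = _ := by ring

end Pool.Agent.J6H60.DR
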